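import Mathlib

/-!
# A criterion for finitely generated commutator subgroups
-/

set_option autoImplicit false

namespace Pool.Agent.V5helper37.PS

open scoped commutatorElement

/-- subgroups of finitely generated abelian groups -/
theorem sub_fg {A : Type*} [CommGroup A] [Group.FG A] (Q : Subgroup A) : Q.FG := by
  have h0 : AddGroup.FG (Additive A) := inferInstance
  have h1 : Module.Finite ℤ (Additive A) := Module.Finite.iff_addGroup_fg.2 h0
  have h2 : IsNoetherian ℤ (Additive A) := isNoetherian_of_isNoetherianRing_of_finite ℤ (Additive A)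
  rw [Subgroup.fg_iff_add_fg]
  have h3 := (AddSubgroup.toIntSubmodule (Subgroup.toAddSubgroup Q)).fg_iff_addSubgroup_fg.1
    (IsNoetherian.noetherian _)
  rwa [AddSubgroup.toIntSubmodule_toAddSubgroup] at h3

/-- subgroups of groups generated by two commuting elements -/
theorem sub_fg2 {G : Type*} [Group G] (z1 z2 : G) (hz : z1 * z2 = z2 * z1) (Q : Subgroup G)
    (hQ : Q ≤ Subgroup.closure {z1, z2}) : Q.FG := by
  let φ : Multiplicative ℤ × Multiplicative ℤ →* G :=
    MonoidHom.noncommCoprod (zpowersHom G z1) (zpowersHom G z2) (by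
      intro m n
      simp only [zpowersHom_apply]
      exact (Commute.zpow_zpow (show Commute z1 z2 from hz) _ _))
  have hφ : Subgroup.closure {z1, z2} ≤ φ.range := by
    rw [Subgroup.closure_le]
    rintro g (rfl | rfl)
    · exact ⟨(Multiplicative.ofAdd 1, 1), by simp [φ]⟩
    · exact ⟨(1, Multiplicative.ofAdd 1), by simp [φ]⟩
  have h1 : Q = (Q.comap φ).map φ := by
    rw [Subgroup.map_comap_eq]
    exact (inf_eq_right.2 (hQ.trans hφ)).symm
  have h2 : (Q.comap φ).FG := by
    have : Group.FG (Multiplicative ℤ × Multiplicative ℤ) := inferInstance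
    exact sub_fg _
  rw [h1, Subgroup.fg_iff]
  obtain ⟨S, hS, hf⟩ := (Subgroup.fg_iff _).1 h2
  refine ⟨φ '' S, ?_, hf.image φ⟩
  rw [← MonoidHom.map_closure, hS]

/-- the criterion -/
theorem fg_comm {G : Type*} [Group G] (x y z1 z2 : G) (hxy : Subgroup.closure {x, y} = ⊤) {q : ℕ}
    (hq : 0 < q) (hz1 : ∀ g, z1 * g = g * z1) (hz2 : ∀ g, z2 * g = g * z2)
    (h1 : x ^ q * z1⁻¹ ∈ commutator G) (h2 : y ^ q * z2⁻¹ ∈ commutator G) :
    (commutator G).FG := by
  have hfg : Group.FG G := by
    rw [Group.fg_iff]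
    exact ⟨{x, y}, hxy, Set.toFinite _⟩
  set Z : Subgroup G := Subgroup.closure {z1, z2} with hZ
  have hZc : ∀ z ∈ Z, ∀ g, z * g = g * z := by
    have : Z ≤ Subgroup.center G := by
      rw [hZ, Subgroup.closure_le]
      rintro g (rfl | rfl)
      · exact Subgroup.mem_center_iff.2 fun g => (hz1 g).symm
      · exact Subgroup.mem_center_iff.2 fun g => (hz2 g).symm
    intro z hz g
    exact (Subgroup.mem_center_iff.1 (this hz) g).symm
  have hdec : ∀ p ∈ commutator G ⊔ Z, ∃ g ∈ commutator G, ∃ z ∈ Z, g * z = p := by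
    intro p hp
    rwa [Subgroup.mem_sup_of_normal_left] at hp
  have hPn : (commutator G ⊔ Z).Normal := by
    refine ⟨fun n hn g => ?_⟩
    have e : g * n * g⁻¹ = ⁅g, n⁆ * n := by
      rw [commutatorElement_def]
      group
    rw [e]
    refine Subgroup.mul_mem _ (Subgroup.mem_sup_left ?_) hn
    exact Subgroup.commutator_mem_commutator (Subgroup.mem_top g) (Subgroup.mem_top n)
  have hcm : ∀ a b : G ⧸ (commutator G ⊔ Z), a * b = b * a := by
    intro a b
    obtain ⟨a, rfl⟩ := QuotientGroup.mk'_surjective _ a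
    obtain ⟨b, rfl⟩ := QuotientGroup.mk'_surjective _ b
    rw [← map_mul, ← map_mul]
    show ((a * b : G) : G ⧸ (commutator G ⊔ Z)) = ((b * a : G) : G ⧸ (commutator G ⊔ Z))
    rw [QuotientGroup.eq]
    apply Subgroup.mem_sup_left
    have e : (a * b)⁻¹ * (b * a) = ⁅b⁻¹, a⁻¹⁆ := by
      rw [commutatorElement_def]
      group
    rw [e]
    exact Subgroup.commutator_mem_commutator (Subgroup.mem_top _) (Subgroup.mem_top _)
  letI iC : CommGroup (G ⧸ (commutator G ⊔ Z)) :=
    { QuotientGroup.Quotient.group (commutator G ⊔ Z) with mul_comm := hcm }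
  have hpow : ∀ g : G, ((g : G ⧸ (commutator G ⊔ Z)) ^ q) = 1 := by
    intro g
    have hg : g ∈ Subgroup.closure {x, y} := by rw [hxy]; exact Subgroup.mem_top g
    have hx0 : ∀ x z : G, z ∈ Z → x ^ q * z⁻¹ ∈ commutator G →
        ((x : G ⧸ (commutator G ⊔ Z)) ^ q) = 1 := by
      intro x z hz h
      rw [← QuotientGroup.mk_pow, QuotientGroup.eq_one_iff]
      have e : x ^ q = x ^ q * z⁻¹ * z := by group
      rw [e]
      exact Subgroup.mul_mem _ (Subgroup.mem_sup_left h) (Subgroup.mem_sup_right hz)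
    induction hg using Subgroup.closure_induction with
    | mem g hg =>
      rcases hg with rfl | rfl
      · exact hx0 _ z1 (Subgroup.subset_closure (Or.inl rfl)) h1
      · exact hx0 _ z2 (Subgroup.subset_closure (Or.inr rfl)) h2
    | one => exact one_pow q
    | mul a b _ _ ha hb =>
      rw [QuotientGroup.mk_mul, mul_pow, ha, hb, one_mul]
    | inv a _ ha =>
      rw [QuotientGroup.mk_inv, inv_pow, ha, inv_one]
  have hfq : Group.FG (G ⧸ (commutator G ⊔ Z)) :=
    Group.fg_of_surjective (QuotientGroup.mk'_surjective (commutator G ⊔ Z))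
  have hfin : Finite (G ⧸ (commutator G ⊔ Z)) := by
    apply CommGroup.finite_of_fg_isMulTorsion
    intro g
    obtain ⟨g, rfl⟩ := QuotientGroup.mk'_surjective _ g
    exact isOfFinOrder_iff_pow_eq_one.2 ⟨q, hq, hpow g⟩
  have hfi : (commutator G ⊔ Z).FiniteIndex := Subgroup.finiteIndex_of_finite_quotient
  have hP : (commutator G ⊔ Z).FG := (Group.fg_iff_subgroup_fg _).1 inferInstance
  obtain ⟨S, hS, hSf⟩ := (Subgroup.fg_iff _).1 hP
  choose! gg hgg zz hzz hgz using hdec
  have hSP : ∀ s ∈ S, s ∈ commutator G ⊔ Z := fun s hs => hS ▸ Subgroup.subset_closure hs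
  have hK : Subgroup.closure (gg '' S) ≤ commutator G := by
    rw [Subgroup.closure_le]
    rintro _ ⟨s, hs, rfl⟩
    exact hgg s (hSP s hs)
  have hall : ∀ p ∈ commutator G ⊔ Z, ∃ k ∈ Subgroup.closure (gg '' S), ∃ z ∈ Z, p = k * z := by
    intro p hp
    rw [← hS] at hp
    induction hp using Subgroup.closure_induction with
    | mem s hs =>
      exact ⟨gg s, Subgroup.subset_closure ⟨s, hs, rfl⟩, zz s, hzz s (hSP s hs),
        (hgz s (hSP s hs)).symm⟩
    | one => exact ⟨1, Subgroup.one_mem _, 1, Subgroup.one_mem _, by rw [one_mul]⟩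
    | mul a b _ _ ha hb =>
      obtain ⟨k, hk, z, hz, rfl⟩ := ha
      obtain ⟨k', hk', z', hz', rfl⟩ := hb
      refine ⟨k * k', Subgroup.mul_mem _ hk hk', z * z', Subgroup.mul_mem _ hz hz', ?_⟩
      calc k * z * (k' * z') = k * (z * k') * z' := by group
        _ = k * (k' * z) * z' := by rw [hZc z hz k']
        _ = k * k' * (z * z') := by group
    | inv a _ ha =>
      obtain ⟨k, hk, z, hz, rfl⟩ := ha
      refine ⟨k⁻¹, Subgroup.inv_mem _ hk, z⁻¹, Subgroup.inv_mem _ hz, ?_⟩
      rw [mul_inv_rev, hZc z⁻¹ (Subgroup.inv_mem _ hz)]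
  have hQ : (commutator G ⊓ Z).FG := sub_fg2 z1 z2 (hz1 z2) _ inf_le_right
  have hKf : (Subgroup.closure (gg '' S)).FG :=
    (Subgroup.fg_iff _).2 ⟨gg '' S, rfl, hSf.image gg⟩
  have heq : commutator G = Subgroup.closure (gg '' S) ⊔ (commutator G ⊓ Z) := by
    apply le_antisymm
    · intro c hc
      obtain ⟨k, hk, z, hz, rfl⟩ := hall c (Subgroup.mem_sup_left hc)
      refine Subgroup.mul_mem _ (Subgroup.mem_sup_left hk) (Subgroup.mem_sup_right ⟨?_, hz⟩)
      have := Subgroup.mul_mem _ (Subgroup.inv_mem _ (hK hk)) hc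
      rwa [inv_mul_cancel_left] at this
    · exact sup_le hK inf_le_left
  rw [heq]
  exact hKf.sup hQ

end Pool.Agent.V5helper37.PS
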