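import Pool.Agent.V5helper37.PS.Lim
import Pool.Agent.V5helper37.PS.Alg

/-!
# A relatively free group with a free subsemigroup and finitely generated commutator subgroup

Let `v` be the word of project MON (starting library) with `v(a, b) = a` for commuting `a, b`. For a
fixed prime `q` and every `k` there is a two generated group `L k` of finite exponent in which
`v(a, b) ^ q = 1` for all noncommuting `a, b` and in which the positive words of length at most `k`
in the two generators are distinct. The word `u = v ^ q` commutes with its two entries in all these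
groups, and it is `x ^ q` modulo the commutator subgroup. The relatively free group of rank two of
the variety generated by the groups `L k` has the required properties.
-/

set_option autoImplicit false

namespace Pool.Agent.V5helper37.PS

open Pool.Agent.TH54.BU Pool.Agent.Y45.MON Pool.Agent.Y872.MON

theorem map_vv {r : ℕ} (w : WP r) {G G' : Type} [Group G] [Group G'] (φ : G →* G') (j : Fin r)
    (a b : G) : φ (vv w j a b) = vv w j (φ a) (φ b) := by
  unfold vv
  rw [map_Wj, map_X1]

/-- the word for commuting entries -/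
theorem vv_comm {r : ℕ} (w : WP r) {G : Type} [Group G] (j : Fin r) (hj : w.δ j = 2) (a b : G)
    (h : a * b = b * a) : vv w j a b = a := by
  have hc : Commute a b := h
  have h1 : P0 w.M1 a b = a ^ (w.M1 + 1) := by
    unfold P0
    have e : b * a ^ w.M1 = a ^ w.M1 * b := (hc.symm.pow_right w.M1).eq
    rw [mul_assoc a b, e, ← mul_assoc, mul_inv_cancel_right, ← pow_succ']
  have h2 : X1 w.M1 w.m2 a b = 1 := by
    unfold X1
    rw [h1]
    have e : a * (a ^ (w.M1 + 1)) ^ w.m2 = (a ^ (w.M1 + 1)) ^ w.m2 * a :=
      ((Commute.refl a).pow_right _ |>.pow_right _).eq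
    rw [e, mul_inv_cancel_right, mul_inv_cancel]
  unfold vv Wj
  rw [h2, hj]
  simp only [one_pow, mul_one]
  have e : a ^ 2 * b * a⁻¹ = a * b := by
    calc a ^ 2 * b * a⁻¹ = a * (a * b) * a⁻¹ := by rw [pow_two, mul_assoc a a b]
      _ = a * (b * a) * a⁻¹ := by rw [h]
      _ = a * b := by group
  rw [e, mul_inv_cancel_right]

/-- the free semigroup and positive words -/
theorem lift_pw {G : Type} [Group G] (a b : G) (s : FreeSemigroup Bool) :
    FreeSemigroup.lift (fun i : Bool => if i then a else b) s = pw a b (s.head :: s.tail) := by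
  induction s using FreeSemigroup.recOnMul with
  | ih1 c =>
    rw [FreeSemigroup.lift_of]
    show _ = pw a b [c]
    rw [pw_single]
  | ih2 c s h1 h2 =>
    rw [map_mul, h2, FreeSemigroup.lift_of]
    have e : (FreeSemigroup.of c * s).head :: (FreeSemigroup.of c * s).tail =
        [c] ++ (s.head :: s.tail) := rfl
    rw [e, pw_append, pw_single]

/-- the main theorem -/
theorem main :
    ∃ (G : Type) (_ : Group G) (X : Set G),
      Subgroup.closure X = ⊤ ∧
      (∀ f : X → G, ∃ φ : G →* G, ∀ x : X, φ (x : G) = f x) ∧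
      (∃ a b : G,
        Function.Injective
          (FreeSemigroup.lift (fun i : Bool => if i then a else b) : FreeSemigroup Bool → G)) ∧
      (commutator G).FG := by
  obtain ⟨w, q, hδ, hq, hL⟩ := exists_grp 1 (fun _ => 2) (fun _ => Or.inr rfl)
  have hj : w.δ 0 = 2 := by rw [hδ]
  choose L iL x y N hN hexp hpos hvv using hL
  -- the laws
  have hcen : ∀ (k : ℕ) (A B : L k), vv w 0 A B ^ q * A = A * vv w 0 A B ^ q ∧
      vv w 0 A B ^ q * B = B * vv w 0 A B ^ q := by
    intro k A B
    by_cases hAB : A * B = B * A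
    · rw [vv_comm w 0 hj A B hAB]
      exact ⟨((Commute.refl A).pow_left q).eq, ((show Commute A B from hAB).pow_left q).eq⟩
    · rw [hvv k 0 A B hAB]
      simp
  -- the verbal subgroup
  let V : Subgroup (FreeGroup Bool) :=
    { carrier := {g | ∀ (k : ℕ) (φ : FreeGroup Bool →* L k), φ g = 1}
      mul_mem' := by
        intro a b ha hb k φ
        rw [map_mul, ha k φ, hb k φ, one_mul]
      one_mem' := fun k φ => map_one φ
      inv_mem' := by
        intro a ha k φ
        rw [map_inv, ha k φ, inv_one] }
  have hV : ∀ g, g ∈ V ↔ ∀ (k : ℕ) (φ : FreeGroup Bool →* L k), φ g = 1 := fun g => Iff.rfl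
  haveI hVn : V.Normal := by
    refine ⟨fun n hn g => ?_⟩
    rw [hV] at hn ⊢
    intro k φ
    rw [map_mul, map_mul, hn k φ, mul_one, map_inv, mul_inv_cancel]
  let a : FreeGroup Bool ⧸ V := QuotientGroup.mk' V (FreeGroup.of true)
  let b : FreeGroup Bool ⧸ V := QuotientGroup.mk' V (FreeGroup.of false)
  have hclo : Subgroup.closure ({a, b} : Set (FreeGroup Bool ⧸ V)) = ⊤ := by
    have h1 : ({a, b} : Set (FreeGroup Bool ⧸ V)) =
        QuotientGroup.mk' V '' (Set.range FreeGroup.of) := by
      ext g
      simp only [Set.mem_insert_iff, Set.mem_singleton_iff, Set.mem_image, Set.mem_range]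
      constructor
      · rintro (rfl | rfl)
        · exact ⟨_, ⟨true, rfl⟩, rfl⟩
        · exact ⟨_, ⟨false, rfl⟩, rfl⟩
      · rintro ⟨_, ⟨c, rfl⟩, rfl⟩
        cases c
        · exact Or.inr rfl
        · exact Or.inl rfl
    rw [h1, ← MonoidHom.map_closure, FreeGroup.closure_range_of, ← MonoidHom.range_eq_map,
      MonoidHom.range_eq_top.2 (QuotientGroup.mk'_surjective V)]
  have hcomm : ∀ g1 g2 : FreeGroup Bool, (∀ (k : ℕ) (φ : FreeGroup Bool →* L k),
      φ g1 * φ g2 = φ g2 * φ g1) → (QuotientGroup.mk' V g1) * (QuotientGroup.mk' V g2) =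
      (QuotientGroup.mk' V g2) * (QuotientGroup.mk' V g1) := by
    intro g1 g2 h
    rw [← map_mul, ← map_mul]
    show ((g1 * g2 : FreeGroup Bool) : FreeGroup Bool ⧸ V) = ((g2 * g1 : FreeGroup Bool) : _)
    rw [QuotientGroup.eq, hV]
    intro k φ
    rw [map_mul, map_inv, map_mul, map_mul, h k φ, inv_mul_cancel]
  have hgen : ∀ z : FreeGroup Bool ⧸ V, z * a = a * z → z * b = b * z → ∀ g, z * g = g * z := by
    intro z h1 h2 g
    have hg : g ∈ Subgroup.closure ({a, b} : Set (FreeGroup Bool ⧸ V)) := by
      rw [hclo]; exact Subgroup.mem_top g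
    induction hg using Subgroup.closure_induction with
    | mem g hg =>
      rcases hg with rfl | rfl
      · exact h1
      · exact h2
    | one => rw [mul_one, one_mul]
    | mul g h _ _ h3 h4 => rw [← mul_assoc, h3, mul_assoc, h4, mul_assoc]
    | inv g _ h3 => exact ((show Commute z g from h3).inv_right).eq
  have hz1 : ∀ g, vv w 0 a b ^ q * g = g * vv w 0 a b ^ q := by
    have e : vv w 0 a b ^ q = QuotientGroup.mk' V (vv w 0 (FreeGroup.of true)
        (FreeGroup.of false) ^ q) := by
      rw [map_pow, map_vv]
    rw [e]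
    apply hgen
    · apply hcomm
      intro k φ
      rw [map_pow, map_vv]
      exact (hcen k _ _).1
    · apply hcomm
      intro k φ
      rw [map_pow, map_vv]
      exact (hcen k _ _).2
  have hz2 : ∀ g, vv w 0 b a ^ q * g = g * vv w 0 b a ^ q := by
    have e : vv w 0 b a ^ q = QuotientGroup.mk' V (vv w 0 (FreeGroup.of false)
        (FreeGroup.of true) ^ q) := by
      rw [map_pow, map_vv]
    rw [e]
    apply hgen
    · apply hcomm
      intro k φ
      rw [map_pow, map_vv]
      exact (hcen k _ _).2
    · apply hcomm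
      intro k φ
      rw [map_pow, map_vv]
      exact (hcen k _ _).1
  have hab : ∀ c d : FreeGroup Bool ⧸ V, c ^ q * (vv w 0 c d ^ q)⁻¹ ∈
      commutator (FreeGroup Bool ⧸ V) := by
    intro c d
    rw [← Abelianization.ker_of, MonoidHom.mem_ker, map_mul, map_inv, map_pow, map_pow, map_vv,
      vv_comm w 0 hj _ _ (mul_comm _ _), mul_inv_cancel]
  refine ⟨FreeGroup Bool ⧸ V, inferInstance, {a, b}, hclo, ?_, ⟨a, b, ?_⟩,
    fg_comm a b _ _ hclo hq.pos hz1 hz2 (hab a b) (hab b a)⟩
  · -- relatively free
    intro f
    obtain ⟨a', ha'⟩ := QuotientGroup.mk'_surjective V (f ⟨a, Or.inl rfl⟩)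
    obtain ⟨b', hb'⟩ := QuotientGroup.mk'_surjective V (f ⟨b, Or.inr rfl⟩)
    let ψ : FreeGroup Bool →* FreeGroup Bool := FreeGroup.lift fun c => if c then a' else b'
    have hψ : V ≤ V.comap ψ := by
      intro g hg
      rw [Subgroup.mem_comap, hV]
      intro k φ
      exact (hV g).1 hg k (φ.comp ψ)
    refine ⟨QuotientGroup.map V V ψ hψ, ?_⟩
    rintro ⟨c, hc⟩
    rcases hc with rfl | rfl
    · show ((ψ (FreeGroup.of true) : FreeGroup Bool) : FreeGroup Bool ⧸ V) = _
      have e : ψ (FreeGroup.of true) = a' := by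
        simp only [ψ, FreeGroup.lift_apply_of, if_true]
      rw [e]
      exact ha'
    · show ((ψ (FreeGroup.of false) : FreeGroup Bool) : FreeGroup Bool ⧸ V) = _
      have e : ψ (FreeGroup.of false) = b' := by
        simp [ψ, FreeGroup.lift_apply_of]
      rw [e]
      exact hb'
  · -- the free semigroup
    intro s t hst
    rw [lift_pw, lift_pw] at hst
    set l1 := s.head :: s.tail with hl1
    set l2 := t.head :: t.tail with hl2
    let k := max l1.length l2.length
    let φ : FreeGroup Bool →* L k := FreeGroup.lift fun c => if c then x k else y k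
    have hφ : V ≤ φ.ker := by
      intro g hg
      rw [MonoidHom.mem_ker]
      exact (hV g).1 hg k φ
    have h1 := congrArg (QuotientGroup.lift V φ hφ) hst
    rw [map_pw, map_pw] at h1
    have e1 : QuotientGroup.lift V φ hφ a = x k := by
      show φ (FreeGroup.of true) = x k
      simp only [φ, FreeGroup.lift_apply_of, if_true]
    have e2 : QuotientGroup.lift V φ hφ b = y k := by
      show φ (FreeGroup.of false) = y k
      simp [φ, FreeGroup.lift_apply_of]
    rw [e1, e2] at h1
    have h2 := hpos k l1 l2 (le_max_left _ _) (le_max_right _ _) h1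
    rw [hl1, hl2, List.cons.injEq] at h2
    exact FreeSemigroup.ext h2.1 h2.2

end Pool.Agent.V5helper37.PS
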