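import Pool.Agent.V5helper37.PS.Desc

/-!
# Positive words in the groups of project MON: descent of the orientation statement
-/

set_option autoImplicit false

namespace Pool.Agent.V5helper37.PS

open Pool.Agent.TH54.BU Pool.Agent.Y45.MON

/-- two points on a geodesic at a given `E`-distance of the ends -/
theorem exists_z {G : Type} [Group G] {H E : GH G} (hle : ∀ g, E.len g ≤ H.len g) (q : G) (K : ℕ)
    (hq : 2 * K ≤ E.len q) : ∃ z1 z2 : G,
    H.d 1 z1 + H.d z1 z2 + H.d z2 q = H.d 1 q ∧ E.d 1 z1 = K ∧ E.d z2 q = K := by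
  obtain ⟨σ, s0, s1, s2⟩ := Guess.exists_geo H.dm 1 q
  obtain ⟨m, hm⟩ : ∃ m, m = H.d 1 q := ⟨_, rfl⟩
  rw [← hm] at s1 s2
  have hle' : ∀ u v, E.d u v ≤ H.d u v := fun u v => hle _
  have st : ∀ k, k < m → E.d (σ k) (σ (k + 1)) ≤ 1 := by
    intro k hk
    have := hle' (σ k) (σ (k + 1))
    rw [s2 k (k + 1) (by omega) (by omega)] at this
    omega
  obtain ⟨a, -, ha, ha'⟩ := ivt (fun k => E.d 1 (σ k)) 0 m K (Nat.zero_le _)
    (by simp only [s0, E.d_self]; exact Nat.zero_le _)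
    (by simp only [s1, E.d_one]; omega)
    (fun k hk => by
      have t1 := E.d_tri 1 (σ k) (σ (k + 1))
      have t2 := st k hk
      omega)
  obtain ⟨j, -, hj, hj'⟩ := ivt (fun j => E.d (σ (m - j)) q) 0 (m - a) K (Nat.zero_le _)
    (by simp only [Nat.sub_zero, s1, E.d_self]; exact Nat.zero_le _)
    (by
      rw [Nat.sub_sub_self ha]
      have t1 := E.d_tri 1 (σ a) q
      rw [E.d_one] at t1
      omega)
    (fun k hk => by
      have t2 := st (m - (k + 1)) (by omega)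
      rw [show m - (k + 1) + 1 = m - k by omega] at t2
      have t1 := E.d_tri (σ (m - (k + 1))) (σ (m - k)) q
      omega)
  refine ⟨σ a, σ (m - j), ?_, ha', hj'⟩
  have d1 := s2 0 a (Nat.zero_le _) ha
  have d2 := s2 a (m - j) (by omega) (by omega)
  have d3 := s2 (m - j) m (by omega) le_rfl
  rw [s0] at d1
  rw [s1] at d3
  rw [d1, d2, d3, ← hm]
  omega

section step

variable {G : Type} [Group G] {H : GH G} {c θ T : ℕ} {L : LS H c θ T} {n : L.ι → ℕ}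
  {M : Subgroup G} [M.Normal] {E : GH G} {Θ : ℕ} {Q H' : GH (G ⧸ M)} {κ R : ℕ} {x y : G} {N : ℕ}

/-- descent of the orientation statement -/
theorem StD.bad (S : StD L n M E Θ Q H' κ R) (hT : Taut H x y N) (hW : WB L n x y N)
    {Cb R1 : ℕ} (hCb : 9 * H.D + 3 ≤ Cb) (hR1 : R1 = 4 * Cb + 3)
    (hb : Bad H' (x : G ⧸ M) (y : G ⧸ M) N Cb R1) : Bad H x y N Cb R1 := by
  obtain ⟨q', c1', c2', c3', c4', l1, l2, hl1, hl2, hc1, hc2, hc3, hc4, hq, e1, e2⟩ := hb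
  have hpw : ∀ l, pw (x : G ⧸ M) (y : G ⧸ M) l = ((pw x y l : G) : G ⧸ M) := fun l =>
    (map_pw (QuotientGroup.mk' M) x y l).symm
  rw [hpw] at e1 e2
  have hbig : ∀ i, (8 : ℤ) * (T * (2 * c + 1) + 2 * (T * Θ) + 24 * L.thr + 1) ≤ n i := fun i => by
    exact_mod_cast S.big i
  have hbigN := S.big
  have hk := S.kap
  have hle : ∀ g, E.len g ≤ H.len g := S.cone.le
  -- the reduced lift
  obtain ⟨q0, rfl⟩ := QuotientGroup.mk_surjective q'
  obtain ⟨m, hm, -, hwq⟩ := Y430.MON.reduced L S.fv S.cone (fun i => by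
    have h1 := hbigN i
    have h2 : 2 * T * Θ = 2 * (T * Θ) := by ring
    omega) q0
  obtain ⟨q, hqd⟩ : ∃ q, q = m * q0 := ⟨_, rfl⟩
  rw [← hqd] at hwq
  have hqq : ((q0 : G) : G ⧸ M) = (q : G ⧸ M) := by
    rw [hqd, QuotientGroup.mk_mul, (QuotientGroup.eq_one_iff m).2 hm, one_mul]
  rw [hqq] at hq e1 e2
  -- the lifts of the connectors
  obtain ⟨c1, h1, h1'⟩ := S.lift c1'
  obtain ⟨c2, h2, h2'⟩ := S.lift c2'
  obtain ⟨c3, h3, h3'⟩ := S.lift c3'
  obtain ⟨c4, h4, h4'⟩ := S.lift c4'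
  have hCE : ∀ (q' : G ⧸ M) (g : G), E.len g = Q.len q' → H'.len q' ≤ Cb → E.len g ≤ κ * Cb := by
    intro q' g hg hq'
    rw [hg]
    exact (S.le_kap q').trans (Nat.mul_le_mul_left κ hq')
  have i1 := hCE _ _ h1' hc1
  have i2 := hCE _ _ h2' hc2
  have i3 := hCE _ _ h3' hc3
  have i4 := hCE _ _ h4' hc4
  obtain ⟨CE, hCEd⟩ : ∃ CE, CE = κ * Cb := ⟨_, rfl⟩
  rw [← hCEd] at i1 i2 i3 i4
  -- the closed lifts
  have m1 : c1 * q * c2 * (pw x y l1)⁻¹ ∈ M := by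
    rw [← QuotientGroup.eq_one_iff, QuotientGroup.mk_mul, QuotientGroup.mk_mul,
      QuotientGroup.mk_mul, QuotientGroup.mk_inv, e1, h1, h2, mul_inv_cancel]
  have m2 : c3 * q⁻¹ * c4 * (pw x y l2)⁻¹ ∈ M := by
    rw [← QuotientGroup.eq_one_iff, QuotientGroup.mk_mul, QuotientGroup.mk_mul,
      QuotientGroup.mk_mul, QuotientGroup.mk_inv, QuotientGroup.mk_inv, e2, h3, h4,
      mul_inv_cancel]
  have hn2 : ∀ i, 24 * L.thr + T * (2 * c + 1) ≤ n i := fun i => by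
    have := hbigN i
    omega
  have hwin1 : ∀ (l : List Bool), l.length ≤ N → ∀ (i : L.ι) (u u' : G),
      |L.s i u 1 (pw x y l)| + |L.s i u' 1 q| + 2 * (T * Θ) + 12 * L.thr < n i := by
    intro l hl i u u'
    have a1 := hW l hl i u
    have a2 := hwq i u'
    have a3 := hbig i
    have p1 : (0 : ℤ) ≤ T * (2 * c + 1) := by positivity
    have p2 : (0 : ℤ) ≤ T * Θ := by positivity
    have p3 : (0 : ℤ) ≤ L.thr := by positivity
    linarith
  have hwin2 : ∀ (l : List Bool), l.length ≤ N → ∀ (i : L.ι) (u u' : G),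
      |L.s i u 1 (pw x y l)| + |L.s i u' 1 q⁻¹| + 2 * (T * Θ) + 12 * L.thr < n i := by
    intro l hl i u u'
    rw [s_inv, abs_neg]
    exact hwin1 l hl i u (q * u')
  obtain ⟨b1, b2, hb1, hb2, f1⟩ := lift4 L S.fv S.cone hn2 i1 i2 m1 (hwin1 l1 hl1)
  obtain ⟨b3, b4, hb3, hb4, f2⟩ := lift4 L S.fv S.cone hn2 i3 i4 m2 (hwin2 l2 hl2)
  -- the length of `q`
  have hEq : κ * (4 * Cb + 2) + 1 ≤ E.len q := by
    have a1 := S.kap_le (q : G ⧸ M)
    have a2 := S.le q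
    have a3 : κ * R1 ≤ κ * H'.len (q : G ⧸ M) := Nat.mul_le_mul_left κ hq
    have a4 : κ * R1 = κ * (4 * Cb + 2) + κ := by rw [hR1]; ring
    omega
  have hEq' : 4 * CE + 2 * κ + 1 ≤ E.len q := by
    have : κ * (4 * Cb + 2) = 4 * CE + 2 * κ := by rw [hCEd]; ring
    omega
  obtain ⟨K1, hK1⟩ : ∃ K1, K1 = CE + R + 4 * H.D + 1 := ⟨_, rfl⟩
  have hCEge : Cb ≤ CE := by
    rw [hCEd]
    exact Nat.le_mul_of_pos_left _ (by omega)
  have hCEge2 : 10 * Cb ≤ CE := by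
    rw [hCEd]
    exact Nat.mul_le_mul_right _ (by omega)
  obtain ⟨z1, z2, hz, hz1, hz2⟩ := exists_z hle q K1 (by omega)
  have t1 := E.d_tri 1 z1 q
  have t2 := E.d_tri 1 z2 q
  have t3 := E.d_tri 1 z1 z2
  rw [E.d_one] at t1 t2
  obtain ⟨l1', a1, a2, hl1', ha1, ha2, g1⟩ := trim S.ec hle hT hl1 f1 hb1 hb2 hz (by omega)
    (by omega) (by omega) (by omega) (by omega)
  have u1 : ∀ (K : GH G) (v w : G), K.d (q⁻¹ * v) (q⁻¹ * w) = K.d v w := fun K v w =>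
    K.d_mul q⁻¹ v w
  have u2 : ∀ (K : GH G) (v : G), K.d 1 (q⁻¹ * v) = K.d q v := by
    intro K v
    have := K.d_mul q⁻¹ q v
    rwa [inv_mul_cancel] at this
  have u3 : ∀ (K : GH G) (v : G), K.d (q⁻¹ * v) q⁻¹ = K.d v 1 := by
    intro K v
    have := K.d_mul q⁻¹ v 1
    rwa [mul_one] at this
  have u4 : ∀ (K : GH G), K.d 1 q⁻¹ = K.d q 1 := by
    intro K
    have := K.d_mul q⁻¹ q 1
    rwa [inv_mul_cancel, mul_one] at this
  obtain ⟨l2', a3, a4, hl2', ha3, ha4, g2⟩ := trim S.ec hle hT hl2 f2 hb3 hb4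
    (z1 := q⁻¹ * z2) (z2 := q⁻¹ * z1) (by
      rw [u1, u2, u3, u4]
      have v1 := H.d_comm q z2
      have v2 := H.d_comm z2 z1
      have v3 := H.d_comm z1 1
      have v4 := H.d_comm q 1
      omega)
    (by rw [u2, E.d_comm]; omega) (by rw [u3, E.d_comm]; omega) (by rw [u2, E.d_comm]; omega)
    (by rw [u3, E.d_comm]; omega) (by rw [u2, u2, E.d_comm q z2, E.d_comm q z1]; omega)
  refine ⟨z1⁻¹ * z2, a1, a2, a3, a4, l1', l2', by omega, by omega, by omega, by omega, by omega,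
    by omega, ?_, g1, ?_⟩
  · have v1 : E.d z1 z2 ≤ H.len (z1⁻¹ * z2) := hle _
    omega
  · rw [g2]
    group

end step

end Pool.Agent.V5helper37.PS
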