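import Pool.Agent.V5helper37.PS.PosPart
import Pool.Agent.TH54.BU.Base

/-!
# Positive words in the groups of project MON: the free group
-/

set_option autoImplicit false

namespace Pool.Agent.V5helper37.PS

open Pool.Agent.TH54.BU Pool.Agent.Y45.MON Pool.Agent.Helper180

/-- the letters of a positive word -/
def lw (l : List Bool) : List (Fin 2 × Bool) := l.map fun b => (if b then 0 else 1, true)

theorem pw_mk (l : List Bool) :
    pw (FreeGroup.of (0 : Fin 2)) (FreeGroup.of 1) l = FreeGroup.mk (lw l) := by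
  induction l with
  | nil => rfl
  | cons b l ih =>
    have h1 : pw (FreeGroup.of (0 : Fin 2)) (FreeGroup.of 1) (b :: l) =
        pw (FreeGroup.of (0 : Fin 2)) (FreeGroup.of 1) [b] *
          pw (FreeGroup.of (0 : Fin 2)) (FreeGroup.of 1) l := pw_append _ _ [b] l
    have h2 : lw (b :: l) = lw [b] ++ lw l := by simp [lw]
    rw [h1, ih, h2, ← FreeGroup.mul_mk]
    congr 1
    rw [pw_single]
    cases b <;> rfl

theorem lw_red (l : List Bool) : FreeGroup.IsReduced (lw l) := by
  induction l with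
  | nil => exact FreeGroup.IsReduced.nil
  | cons b l ih =>
    cases l with
    | nil => exact FreeGroup.IsReduced.singleton
    | cons b' l =>
      have h2 : lw (b :: b' :: l) = (if b then 0 else 1, true) :: lw (b' :: l) := rfl
      have h3 : lw (b' :: l) = (if b' then 0 else 1, true) :: lw l := rfl
      rw [h2, h3, FreeGroup.isReduced_cons_cons]
      refine ⟨fun _ => rfl, ?_⟩
      rw [← h3]
      exact ih

theorem pw_toWord (l : List Bool) :
    (pw (FreeGroup.of (0 : Fin 2)) (FreeGroup.of 1) l).toWord = lw l := by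
  rw [pw_mk, FreeGroup.toWord_mk]
  exact (lw_red l).reduce_eq

theorem pw_norm (l : List Bool) :
    (pw (FreeGroup.of (0 : Fin 2)) (FreeGroup.of 1) l).norm = l.length := by
  unfold FreeGroup.norm
  rw [pw_toWord, lw, List.length_map]

theorem lw_inj {l1 l2 : List Bool} (h : lw l1 = lw l2) : l1 = l2 := by
  refine List.map_injective_iff.2 ?_ h
  intro a b hab
  cases a <;> cases b <;> simp_all

theorem pw_inj {l1 l2 : List Bool} (h : pw (FreeGroup.of (0 : Fin 2)) (FreeGroup.of 1) l1 =
    pw (FreeGroup.of (0 : Fin 2)) (FreeGroup.of 1) l2) : l1 = l2 := by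
  apply lw_inj
  rw [← pw_toWord, ← pw_toWord, h]

theorem taut0 (N : ℕ) : Taut (freeGH (Fin 2) 4) (FreeGroup.of 0) (FreeGroup.of 1) N where
  lx := (FreeGroup.norm_of (0 : Fin 2)).le
  ly := (FreeGroup.norm_of (1 : Fin 2)).le
  add := by
    intro l1 l2 _
    show FreeGroup.norm (pw (FreeGroup.of (0 : Fin 2)) (FreeGroup.of 1) l1) +
      FreeGroup.norm (pw (FreeGroup.of (0 : Fin 2)) (FreeGroup.of 1) l2) ≤
      FreeGroup.norm (pw (FreeGroup.of (0 : Fin 2)) (FreeGroup.of 1) (l1 ++ l2)) + 3
    rw [pw_norm, pw_norm, pw_norm, List.length_append]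
    omega

/-- the height -/
def hgt : FreeGroup (Fin 2) →* Multiplicative ℤ := FreeGroup.lift fun _ => Multiplicative.ofAdd 1

theorem hgt_pw (l : List Bool) :
    Multiplicative.toAdd (hgt (pw (FreeGroup.of (0 : Fin 2)) (FreeGroup.of 1) l)) = l.length := by
  induction l with
  | nil => simp [pw_nil]
  | cons b l ih =>
    have h1 : pw (FreeGroup.of (0 : Fin 2)) (FreeGroup.of 1) (b :: l) =
        pw (FreeGroup.of (0 : Fin 2)) (FreeGroup.of 1) [b] *
          pw (FreeGroup.of (0 : Fin 2)) (FreeGroup.of 1) l := pw_append _ _ [b] l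
    rw [h1, map_mul, toAdd_mul, ih, pw_single, List.length_cons]
    have h2 : Multiplicative.toAdd (hgt (if b then FreeGroup.of (0 : Fin 2) else
        FreeGroup.of 1)) = 1 := by
      cases b <;> simp [hgt]
    rw [h2]
    push_cast
    ring

theorem hgt_le (g : FreeGroup (Fin 2)) : |Multiplicative.toAdd (hgt g)| ≤ g.norm := by
  have key : ∀ l : List (Fin 2 × Bool),
      |Multiplicative.toAdd (hgt (FreeGroup.mk l))| ≤ l.length := by
    intro l
    induction l with
    | nil => simp [← FreeGroup.one_eq_mk]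
    | cons p l ih =>
      have h1 : (FreeGroup.mk (p :: l) : FreeGroup (Fin 2)) = FreeGroup.mk [p] * FreeGroup.mk l := by
        rw [FreeGroup.mul_mk]
        rfl
      rw [h1, map_mul, toAdd_mul, List.length_cons]
      have h2 : |Multiplicative.toAdd (hgt (FreeGroup.mk [p]))| ≤ 1 := by
        obtain ⟨a, b⟩ := p
        cases b <;> simp [hgt]
      have h3 := abs_add_le (Multiplicative.toAdd (hgt (FreeGroup.mk [p])))
        (Multiplicative.toAdd (hgt (FreeGroup.mk l)))
      push_cast
      linarith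
  have := key g.toWord
  rw [FreeGroup.mk_toWord] at this
  exact this

theorem nb0 (N : ℕ) : ¬ Bad (freeGH (Fin 2) 4) (FreeGroup.of 0) (FreeGroup.of 1) N 6507 26031 := by
  rintro ⟨q, c1, c2, c3, c4, l1, l2, -, -, h1, h2, h3, h4, hq, e1, e2⟩
  change c1.norm ≤ 6507 at h1
  change c2.norm ≤ 6507 at h2
  change c3.norm ≤ 6507 at h3
  change c4.norm ≤ 6507 at h4
  change 26031 ≤ q.norm at hq
  have n1 := congrArg FreeGroup.norm e1
  have n2 := congrArg FreeGroup.norm e2
  rw [pw_norm] at n1 n2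
  have a1 := congrArg (fun g => Multiplicative.toAdd (hgt g)) e1
  have a2 := congrArg (fun g => Multiplicative.toAdd (hgt g)) e2
  simp only [hgt_pw, map_mul, toAdd_mul, map_inv, toAdd_inv] at a1 a2
  have b1 := hgt_le c1
  have b2 := hgt_le c2
  have b3 := hgt_le c3
  have b4 := hgt_le c4
  rw [abs_le] at b1 b2 b3 b4
  -- the lengths
  have q1 : q = c1⁻¹ * (c1 * q * c2) * c2⁻¹ := by group
  have q2 : q = c4 * (c3 * q⁻¹ * c4)⁻¹ * c3 := by group
  have m1 : q.norm ≤ c1.norm + l1.length + c2.norm := by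
    have k1 := FreeGroup.norm_mul_le (c1⁻¹ * (c1 * q * c2)) c2⁻¹
    have k2 := FreeGroup.norm_mul_le c1⁻¹ (c1 * q * c2)
    rw [FreeGroup.norm_inv_eq] at k1 k2
    rw [← q1] at k1
    omega
  have m2 : q.norm ≤ c4.norm + l2.length + c3.norm := by
    have k1 := FreeGroup.norm_mul_le (c4 * (c3 * q⁻¹ * c4)⁻¹) c3
    have k2 := FreeGroup.norm_mul_le c4 (c3 * q⁻¹ * c4)⁻¹
    rw [FreeGroup.norm_inv_eq] at k2
    rw [← q2] at k1
    omega
  omega

/-- the free group as base of the induction -/
theorem base0 : (freeGH (Fin 2) 4).Stab 1 ∧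
    (∀ K B : ℕ, 8 * K + 20 ≤ B → (freeGH (Fin 2) 4).Acy K B) := by
  refine ⟨?_, ?_⟩
  · intro g hg m
    rw [one_mul]
    refine freeBase_norm_pow ?_ m
    rintro rfl
    exact hg IsOfFinOrder.one
  · intro K B hB q hq g hg
    refine ⟨?_, ?_⟩
    · intro hf
      obtain ⟨n, hn, h⟩ := isOfFinOrder_iff_pow_eq_one.1 hf
      exact (pow_eq_one_iff_left hn.ne').1 h
    · intro h hh
      have hD : (freeGH (Fin 2) 0).D = 0 := rfl
      have hq' : 8 * K + 20 ≤ (freeGH (Fin 2) 0).d 1 q := by
        rw [GH.d_one]; exact hB.trans hq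
      obtain ⟨t, ht1, ht2⟩ := (freeGH (Fin 2) 0).between 1 q (4 * K + 10) (by omega)
      have hd1 : ∀ w ∈ (freeGH (Fin 2) 4).SD K q, (freeGH (Fin 2) 0).d 1 (w * 1) ≤ K := by
        intro w hw
        rw [mul_one, GH.d_one]; exact hw.1
      have hd2 : ∀ w ∈ (freeGH (Fin 2) 4).SD K q, (freeGH (Fin 2) 0).d q (w * q) ≤ K := by
        intro w hw
        have := hw.2
        rw [mul_assoc] at this
        exact this
      have key := (freeGH (Fin 2) 0).cm (hd1 g hg) (hd2 g hg) (hd1 h hh) (hd2 h hh) (t := t)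
        (by omega) (by omega) (by omega)
      rw [hD, mul_zero, Nat.le_zero] at key
      have h1 := (freeGH (Fin 2) 0).eq_of_d key
      have h2 : g * h * g⁻¹ * h⁻¹ = 1 := by
        have : g * h * g⁻¹ * h⁻¹ * t = 1 * t := by rw [one_mul]; exact h1.symm
        exact mul_right_cancel this
      have h3 : g * h * (h * g)⁻¹ = 1 := by rw [mul_inv_rev, ← mul_assoc]; exact h2
      exact mul_inv_eq_one.1 h3

end Pool.Agent.V5helper37.PS
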