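import Pool.Agent.V5helper37.PS.Lift
import Pool.Agent.Y430.MON.CloseV
import Pool.Agent.TH54.BU.Rescale

/-!
# Positive words in the groups of project MON: the quotient metric, tautness and the descent
-/

set_option autoImplicit false

namespace Pool.Agent.V5helper37.PS

open Pool.Agent.TH54.BU Pool.Agent.Y45.MON

/-- the points of `H`-geodesics are almost `E`-geodesic -/
def EC {G : Type} [Group G] (H E : GH G) (R : ℕ) : Prop :=
  ∀ p q t : G, H.d p t + H.d t q = H.d p q → E.d p t + E.d t q ≤ E.d p q + R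

theorem exists_ec (D c : ℕ) : ∃ R : ℕ, ∀ (G : Type) [Group G] (H : GH G) (θ T Θ : ℕ)
    (L : LS H c θ T) (E : GH G), L.Cone E Θ → H.D ≤ D → EC H E R := by
  obtain ⟨R, hR⟩ := guess D (c + 1)
  refine ⟨2 * R, ?_⟩
  intro G _ H θ T Θ L E C hD
  have hF : Four H.d D := by
    intro u v w z
    have := H.fp u v w z
    omega
  have hle : ∀ u v, E.d u v ≤ H.d u v := fun u v => C.le _
  obtain ⟨g1, -, -⟩ := hR G H.d E.d H.dm E.dm hle hF (by
    intro p q r h hr
    rcases (C.le_one (p⁻¹ * q)).1 h with h1 | ⟨i, k, hk⟩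
    · have h2 : H.d p q ≤ 1 := h1
      have h3 := hle p r
      omega
    · have h0 : H.d (L.x i ^ (0 : ℤ)) (p⁻¹ * r) + H.d (p⁻¹ * r) (L.x i ^ k) =
          H.d (L.x i ^ (0 : ℤ)) (L.x i ^ k) := by
        rw [← hk, zpow_zero, ← H.d_mul p 1, ← H.d_mul p (p⁻¹ * r), ← H.d_mul p 1,
          mul_inv_cancel_left, mul_inv_cancel_left, mul_one]
        exact hr
      obtain ⟨m, hm⟩ := L.qc i 0 k _ h0
      have h1 : E.d p (p * L.x i ^ m) ≤ 1 := by
        unfold GH.d
        rw [inv_mul_cancel_left]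
        exact (C.le_one _).2 (Or.inr ⟨i, m, rfl⟩)
      have h2 := hle (p * L.x i ^ m) r
      have h3 := E.d_tri p (p * L.x i ^ m) r
      have h4 : H.d (p * L.x i ^ m) r = H.d (p⁻¹ * r) (L.x i ^ m) := by
        rw [← H.d_mul p (p⁻¹ * r), mul_inv_cancel_left, H.d_comm]
      omega)
  intro p q t ht
  obtain ⟨γ, h0, h1, hG⟩ := E.exists_geod p q
  obtain ⟨i, hi, hi2⟩ := g1 γ (E.d p q) hG.1 hG.2 t (by rw [h0, h1]; exact ht)
  have e1 := hG.sub (Nat.zero_le i) hi
  have e2 := hG.sub hi le_rfl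
  rw [h0] at e1
  rw [h1] at e2
  have t1 := E.d_tri p (γ i) t
  have t2 := E.d_tri t (γ i) q
  have t3 := E.d_comm (γ i) t
  omega

section step

variable {G : Type} [Group G] {H : GH G} {c θ T : ℕ} {L : LS H c θ T} {n : L.ι → ℕ}
  {M : Subgroup G} [M.Normal] {E : GH G} {Θ : ℕ} {Q H' : GH (G ⧸ M)} {κ R : ℕ} {x y : G} {N : ℕ}

/-- the windows of the positive words are small -/
def WB (L : LS H c θ T) (n : L.ι → ℕ) (x y : G) (N : ℕ) : Prop :=
  ∀ l : List Bool, l.length ≤ N → ∀ (i : L.ι) (u : G), 8 * |L.s i u 1 (pw x y l)| ≤ n i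

/-- the data of a step -/
structure StD (L : LS H c θ T) (n : L.ι → ℕ) (M : Subgroup G) [M.Normal] (E : GH G) (Θ : ℕ)
    (Q H' : GH (G ⧸ M)) (κ R : ℕ) : Prop where
  fv : Fv L n M
  cone : L.Cone E Θ
  le : ∀ g : G, Q.len (g : G ⧸ M) ≤ E.len g
  lift : ∀ q : G ⧸ M, ∃ g : G, (g : G ⧸ M) = q ∧ E.len g = Q.len q
  resc : ∀ q, H'.len q = (Q.len q + κ - 1) / κ
  ec : EC H E R
  kap : 3 * R + 18 * H.D + 10 ≤ κ
  big : ∀ i, 8 * (T * (2 * c + 1) + 2 * (T * Θ) + 24 * L.thr + 1) ≤ n i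

theorem StD.le_kap (S : StD L n M E Θ Q H' κ R) (q : G ⧸ M) : Q.len q ≤ κ * H'.len q := by
  rw [S.resc]
  exact rescale_le (by have := S.kap; omega) _

theorem StD.kap_le (S : StD L n M E Θ Q H' κ R) (q : G ⧸ M) :
    κ * H'.len q ≤ Q.len q + κ - 1 := by
  rw [S.resc]
  exact rescale_ge _

/-- positive words keep their `E`-length -/
theorem StD.q_eq (S : StD L n M E Θ Q H' κ R) (hW : WB L n x y N) (l : List Bool)
    (hl : l.length ≤ N) : Q.len ((pw x y l : G) : G ⧸ M) = E.len (pw x y l) := by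
  apply le_antisymm (S.le _)
  obtain ⟨g, hg1, hg2⟩ := S.lift ((pw x y l : G) : G ⧸ M)
  rw [← hg2]
  have hm : g * (pw x y l)⁻¹ ∈ M := by
    rw [← QuotientGroup.eq_one_iff, QuotientGroup.mk_mul, QuotientGroup.mk_inv, hg1,
      mul_inv_cancel]
  have h1 := Y430.MON.cone_min L S.fv S.cone (fun i => by have := S.big i; omega)
    (p := 1) (q := pw x y l) (fun i u => by
      have h2 := hW l hl i u
      have h3 : ((8 * (T * (2 * c + 1) + 2 * (T * Θ) + 24 * L.thr + 1) : ℕ) : ℤ) ≤ n i := by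
        exact_mod_cast S.big i
      push_cast at h3
      have p1 : (0 : ℤ) ≤ T * (2 * c + 1) := by positivity
      have p2 : (0 : ℤ) ≤ T * Θ := by positivity
      have p3 : (0 : ℤ) ≤ L.thr := by positivity
      linarith) hm
  rw [inv_mul_cancel_right, E.d_one, E.d_one] at h1
  exact h1

/-- tautness is inherited by the quotient -/
theorem StD.taut (S : StD L n M E Θ Q H' κ R) (hT : Taut H x y N) (hW : WB L n x y N)
    (hlen : ∀ g : G, H'.len (g : G ⧸ M) ≤ (H.len g + 1) / 2) :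
    Taut H' (x : G ⧸ M) (y : G ⧸ M) N where
  lx := by
    have h1 := hlen x
    have h2 := hT.lx
    omega
  ly := by
    have h1 := hlen y
    have h2 := hT.ly
    omega
  add := by
    intro l1 l2 hl
    have hpw : ∀ l, pw (x : G ⧸ M) (y : G ⧸ M) l = ((pw x y l : G) : G ⧸ M) := fun l =>
      (map_pw (QuotientGroup.mk' M) x y l).symm
    rw [hpw, hpw, hpw]
    have hl1 : l1.length ≤ N := by rw [List.length_append] at hl; omega
    have hl2 : l2.length ≤ N := by rw [List.length_append] at hl; omega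
    have t0 := hT.add l1 l2 hl
    have hd2 : ∀ K : GH G, K.d (pw x y l1) (pw x y (l1 ++ l2)) = K.len (pw x y l2) := by
      intro K
      rw [pw_append]
      unfold GH.d
      rw [inv_mul_cancel_left]
    have t1 : H.d 1 (pw x y l1) + H.d (pw x y l1) (pw x y (l1 ++ l2)) ≤
        H.d 1 (pw x y (l1 ++ l2)) + 3 := by
      rw [H.d_one, H.d_one, hd2]
      exact t0
    obtain ⟨t, ht1, ht2⟩ := H.near_btw t1
    have t2 := S.ec _ _ _ ht1
    have t3 := E.d_tri 1 t (pw x y l1)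
    have t4 := E.d_tri (pw x y l1) t (pw x y (l1 ++ l2))
    have t5 : E.d (pw x y l1) t ≤ H.d (pw x y l1) t := S.cone.le _
    have t6 := E.d_comm (pw x y l1) t
    rw [E.d_one] at t3
    rw [hd2] at t4
    rw [E.d_one (pw x y (l1 ++ l2))] at t2
    have u1 := S.le (pw x y l1)
    have u2 := S.le (pw x y l2)
    have u3 := S.q_eq hW (l1 ++ l2) hl
    have v1 := S.kap_le ((pw x y l1 : G) : G ⧸ M)
    have v2 := S.kap_le ((pw x y l2 : G) : G ⧸ M)
    have v3 := S.le_kap ((pw x y (l1 ++ l2) : G) : G ⧸ M)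
    have hk := S.kap
    have key : κ * (H'.len ((pw x y l1 : G) : G ⧸ M) + H'.len ((pw x y l2 : G) : G ⧸ M)) ≤
        κ * (H'.len ((pw x y (l1 ++ l2) : G) : G ⧸ M) + 3) := by
      rw [mul_add, mul_add]
      omega
    exact Nat.le_of_mul_le_mul_left key (by omega)

end step

/-- a positive word following a segment: cutting with respect to the metric `E` -/
theorem trim {G : Type} [Group G] {H E : GH G} {R : ℕ} (hEC : EC H E R)
    (hle : ∀ g, E.len g ≤ H.len g) {x y : G} {N : ℕ} (hT : Taut H x y N) {l : List Bool}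
    (hl : l.length ≤ N) {CE : ℕ} {q c1 c2 z1 z2 : G} (hw : pw x y l = c1 * q * c2)
    (h1 : E.len c1 ≤ CE) (h2 : E.len c2 ≤ CE)
    (hz : H.d 1 z1 + H.d z1 z2 + H.d z2 q = H.d 1 q)
    (k1 : CE + R + 4 * H.D < E.d 1 z1) (k2 : CE + R + 4 * H.D < E.d z1 q)
    (k3 : CE + R + 4 * H.D < E.d 1 z2) (k4 : CE + R + 4 * H.D < E.d z2 q)
    (k5 : E.d 1 z1 + 2 * CE + R + 10 * H.D < E.d 1 z2) :
    ∃ (l' : List Bool) (c1' c2' : G), l'.length ≤ l.length ∧ H.len c1' ≤ 9 * H.D + 3 ∧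
      H.len c2' ≤ 9 * H.D + 3 ∧ pw x y l' = c1' * (z1⁻¹ * z2) * c2' := by
  have hle' : ∀ u v, E.d u v ≤ H.d u v := fun u v => hle _
  have hF : Four H.d H.D := H.fp
  obtain ⟨w, hwd⟩ : ∃ w, w = pw x y l := ⟨_, rfl⟩
  rw [← hwd] at hw
  -- the points are near to a geodesic
  have near : ∀ z : G, H.d 1 z + H.d z q = H.d 1 q → CE + R + 4 * H.D < E.d 1 z →
      CE + R + 4 * H.D < E.d z q →
      H.d 1 (c1 * z) + H.d (c1 * z) w ≤ H.len w + 8 * H.D := by
    intro z hz e1 e2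
    have g1 : H.d c1 (c1 * z) + H.d (c1 * z) (c1 * q) = H.d c1 (c1 * q) := by
      have a1 := H.d_mul c1 1 z
      have a2 := H.d_mul c1 z q
      have a3 := H.d_mul c1 1 q
      rw [mul_one] at a1 a3
      omega
    have g2 : E.d c1 (c1 * z) = E.d 1 z := by
      have := E.d_mul c1 1 z
      rwa [mul_one] at this
    have g3 : E.d (c1 * z) (c1 * q) = E.d z q := E.d_mul c1 z q
    rcases Guess.slim H.dm hF w g1 with ⟨q1, hq1, hq2⟩ | ⟨q1, hq1, hq2⟩
    · rcases Guess.slim H.dm hF 1 hq1 with ⟨q2, hq3, hq4⟩ | ⟨q2, hq3, hq4⟩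
      · exfalso
        have f1 := hEC _ _ _ hq3
        have f0 := E.d_one' c1
        have f2 := E.d_tri c1 q2 (c1 * z)
        have f3 := E.d_tri q2 q1 (c1 * z)
        have f4 := hle' q1 q2
        have f5 := hle' (c1 * z) q1
        rw [E.d_comm q1 q2] at f4
        rw [E.d_comm (c1 * z) q1] at f5
        omega
      · have f1 := H.d_tri 1 q2 (c1 * z)
        have f2 := H.d_tri (c1 * z) q2 w
        have f3 := H.d_tri (c1 * z) q1 q2
        have f4 := H.d_comm (c1 * z) q2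
        have f5 := H.d_comm w q2
        have f6 := H.d_comm q2 1
        have f7 := H.d_one' w
        omega
    · exfalso
      have f1 := hEC _ _ _ hq1
      have f0 : E.d (c1 * q) w = E.len c2 := by
        unfold GH.d
        rw [hw, inv_mul_cancel_left]
      rw [f0] at f1
      have f2 := E.d_tri (c1 * z) q1 (c1 * q)
      have f5 := hle' (c1 * z) q1
      have f6 := E.d_comm q1 (c1 * q)
      omega
  have hz1 : H.d 1 z1 + H.d z1 q = H.d 1 q := by
    have a1 := H.d_tri z1 z2 q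
    have a2 := H.d_tri 1 z1 q
    omega
  have hz2 : H.d 1 z2 + H.d z2 q = H.d 1 q := by
    have a1 := H.d_tri 1 z1 z2
    have a2 := H.d_tri 1 z2 q
    omega
  have n1 := near z1 hz1 k1 k2
  have n2 := near z2 hz2 k3 k4
  have g2 : ∀ z, E.d c1 (c1 * z) = E.d 1 z := by
    intro z
    have := E.d_mul c1 1 z
    rwa [mul_one] at this
  have hord : H.len (c1 * z1) ≤ H.len (c1 * z2) := by
    by_contra hcon
    push Not at hcon
    have e1 := H.fp (c1 * z2) (c1 * z1) 1 w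
    rw [H.d_one, H.d_one' (c1 * z2), H.d_one' (c1 * z1)] at e1
    rw [H.d_one] at n1 n2
    have gg1 := g2 z1
    have gg2 := g2 z2
    have a1 := E.d_tri c1 1 (c1 * z2)
    have a2 := E.d_tri 1 c1 (c1 * z1)
    have a3 := E.d_one' c1
    have a4 := E.d_one c1
    rcases max_choice (H.len (c1 * z2) + H.d (c1 * z1) w)
      (H.d (c1 * z2) w + H.len (c1 * z1)) with e2 | e2 <;> rw [e2] at e1
    · have b1 : H.d (c1 * z2) (c1 * z1) ≤ 9 * H.D := by omega
      have b2 := hle' (c1 * z2) (c1 * z1)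
      have b3 := E.d_tri c1 (c1 * z1) (c1 * z2)
      have b4 := E.d_comm (c1 * z2) (c1 * z1)
      omega
    · have b1 : H.d 1 (c1 * z2) + H.d (c1 * z2) (c1 * z1) ≤ H.d 1 (c1 * z1) + 9 * H.D := by
        rw [H.d_one, H.d_one]
        omega
      obtain ⟨t, ht1, ht2⟩ := H.near_btw b1
      have b2 := hEC _ _ _ ht1
      have b3 := E.d_tri 1 t (c1 * z2)
      have b4 := hle' (c1 * z2) t
      have b5 := E.d_comm (c1 * z2) t
      omega
  rw [hwd] at n1 n2
  obtain ⟨l', d1, d2, hl', hd1, hd2, he⟩ := hT.cut hl n1 n2 hord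
  refine ⟨l', d1, d2, hl', by omega, by omega, ?_⟩
  rw [he]
  group

/-- positive words which follow a segment in both directions -/
def Bad {G : Type} [Group G] (H : GH G) (x y : G) (N Cb R1 : ℕ) : Prop :=
  ∃ (q c1 c2 c3 c4 : G) (l1 l2 : List Bool), l1.length ≤ N ∧ l2.length ≤ N ∧ H.len c1 ≤ Cb ∧
    H.len c2 ≤ Cb ∧ H.len c3 ≤ Cb ∧ H.len c4 ≤ Cb ∧ R1 ≤ H.len q ∧
    pw x y l1 = c1 * q * c2 ∧ pw x y l2 = c3 * q⁻¹ * c4

end Pool.Agent.V5helper37.PS
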