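import Pool.Agent.V5helper37.PS.Words

/-!
# Positive words in the groups of project MON: closed lifts of quadrilaterals
-/

set_option autoImplicit false

namespace Pool.Agent.V5helper37.PS

open Pool.Agent.TH54.BU Pool.Agent.Y45.MON

variable {G : Type} [Group G] {H : GH G} {c θ T : ℕ} (L : LS H c θ T)

/-- closed lifts of polygons, general form -/
theorem close' {n : L.ι → ℕ} {M : Subgroup G} (F : Fv L n M) {k : ℕ}
    (hn2 : ∀ i, 24 * L.thr + T * (2 * c + 1) ≤ n i)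
    (Rel : ℕ → G → G → Prop)
    (hM : ∀ j < k, ∀ m ∈ M, ∀ a b, Rel j a b → Rel j (m * a) (m * b))
    (hrot : ∀ P : ℕ → G, (∀ j < k, Rel j (P j) (P (j + 1))) → ∀ (i : L.ι) (u : G),
      (n i : ℤ) ≤ |L.s i u (P 0) (P k)| + 12 * L.thr →
      ∃ j < k, ∀ l : ℤ, Rel j (P j) (L.rt i u (n i * l) * P (j + 1)))
    (P : ℕ → G) (hP : ∀ j < k, Rel j (P j) (P (j + 1))) (hend : ∃ m ∈ M, P k = m * P 0) :
    ∃ P' : ℕ → G, (∀ j < k, Rel j (P' j) (P' (j + 1))) ∧ P' k = P' 0 ∧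
      ∀ j ≤ k, ∃ m ∈ M, P' j = m * P j := by
  obtain ⟨P', ⟨hP1, hP2⟩, hmin⟩ := cl_min
    (fun P' : ℕ → G => (∀ j < k, Rel j (P' j) (P' (j + 1))) ∧ ∀ j ≤ k, ∃ m ∈ M, P' j = m * P j)
    (fun P' => H.d (P' 0) (P' k)) ⟨P, hP, fun j _ => ⟨1, M.one_mem, (one_mul _).symm⟩⟩
  refine ⟨P', hP1, ?_, hP2⟩
  by_contra hne
  obtain ⟨m0, hm0, e0⟩ := hend
  obtain ⟨m1, hm1, e1⟩ := hP2 k le_rfl
  obtain ⟨m2, hm2, e2⟩ := hP2 0 (Nat.zero_le _)
  have em : P' k = (m1 * m0 * m2⁻¹) * P' 0 := by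
    rw [e1, e2, e0]
    group
  have hm : m1 * m0 * m2⁻¹ ∈ M := M.mul_mem (M.mul_mem hm1 hm0) (M.inv_mem hm2)
  have hm1' : m1 * m0 * m2⁻¹ ≠ 1 := by
    intro h
    rw [h, one_mul] at em
    exact hne em
  obtain ⟨i, u, hgr⟩ := F.gr _ hm hm1' (P' 0)
  rw [← em] at hgr
  obtain ⟨j, hj, hAj⟩ := hrot P' hP1 i u hgr
  have hn2i := hn2 i
  obtain ⟨l, hl⟩ := L.shorten 0 (n := n i) (i := i) (u := u) (p := P' 0) (q := P' k)
    (by rw [add_zero]; omega) (by
      have h2 : (24 : ℤ) * L.thr + T * (2 * c + 1) ≤ n i := by exact_mod_cast hn2i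
      push_cast
      rw [add_zero]
      linarith)
  rw [add_zero] at hl
  have hrM : L.rt i u (n i * l) ∈ M := F.rot i u l
  have hlt := hmin (fun e => if e ≤ j then P' e else L.rt i u (n i * l) * P' e) ⟨?_, ?_⟩
  · simp only [Nat.zero_le, if_true, if_neg (show ¬ k ≤ j by omega)] at hlt
    omega
  · intro e he
    by_cases h1 : e + 1 ≤ j
    · rw [if_pos h1, if_pos (by omega)]
      exact hP1 e he
    · by_cases h2 : e ≤ j
      · have : e = j := by omega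
        subst this
        rw [if_pos le_rfl, if_neg h1]
        exact hAj l
      · rw [if_neg h1, if_neg h2]
        exact hM e he _ hrM _ _ (hP1 e he)
  · intro e he
    obtain ⟨m, hm, e3⟩ := hP2 e he
    split_ifs
    · exact ⟨m, hm, e3⟩
    · exact ⟨_, M.mul_mem hrM hm, by rw [e3, mul_assoc]⟩

/-- a window is bounded by the windows from `1` -/
theorem s_base (i : L.ι) (u a g : G) : L.s i u a (a * g) = L.s i (a⁻¹ * u) 1 g := by
  have h := L.rg_s_mul i u a 1 g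
  rwa [mul_one] at h

theorem s_inv (i : L.ι) (u g : G) : L.s i u 1 g⁻¹ = - L.s i (g * u) 1 g := by
  have h := s_base L i (g * u) g g⁻¹
  rw [mul_inv_cancel, inv_mul_cancel_left] at h
  rw [← h, L.rg_s_symm]

/-- lifting an equation `w = c1 q c2` with short `c1`, `c2` -/
theorem lift4 {n : L.ι → ℕ} {M : Subgroup G} (F : Fv L n M) {E : GH G} {Θ : ℕ}
    (C : L.Cone E Θ) (hn2 : ∀ i, 24 * L.thr + T * (2 * c + 1) ≤ n i) {w q c1 c2 : G} {C1 C2 : ℕ}
    (hc1 : E.len c1 ≤ C1) (hc2 : E.len c2 ≤ C2) (hm : c1 * q * c2 * w⁻¹ ∈ M)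
    (hwin : ∀ (i : L.ι) (u u' : G), |L.s i u 1 w| + |L.s i u' 1 q| + 2 * (T * Θ) + 12 * L.thr <
      n i) :
    ∃ c1' c2' : G, E.len c1' ≤ C1 ∧ E.len c2' ≤ C2 ∧ w = c1' * q * c2' := by
  obtain ⟨Rel, hRel⟩ : ∃ Rel : ℕ → G → G → Prop, Rel = fun j a b =>
      if j = 0 then E.d a b ≤ C1 else if j = 1 then a⁻¹ * b = q else
      if j = 2 then E.d a b ≤ C2 else a⁻¹ * b = w⁻¹ := ⟨_, rfl⟩
  obtain ⟨P, hP⟩ : ∃ P : ℕ → G, P = fun j =>
      if j = 0 then 1 else if j = 1 then c1 else if j = 2 then c1 * q else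
      if j = 3 then c1 * q * c2 else c1 * q * c2 * w⁻¹ := ⟨_, rfl⟩
  have h4 : ∀ j : ℕ, j < 4 → j = 0 ∨ j = 1 ∨ j = 2 ∨ j = 3 := by intro j hj; omega
  have hTΘ : ∀ (i : L.ι) (u a b : G), (T * Θ : ℕ) ≤ |L.s i u a b| → ∀ l : ℤ,
      E.d a (L.rt i u (n i * l) * b) ≤ E.d a b := by
    intro i u a b h l
    refine L.rot_cone C (n := n i) (L.cl_D_ge i u a b Θ ?_) (n i * l)
    rw [Int.abs_eq_natAbs] at h
    exact_mod_cast h
  obtain ⟨P', hP1, hP2, -⟩ := close' L F (k := 4) hn2 Rel (by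
      intro j hj m _ a b h
      have e1 : (m * a)⁻¹ * (m * b) = a⁻¹ * b := by group
      rcases h4 j hj with rfl | rfl | rfl | rfl <;> simp only [hRel] at h ⊢ <;>
        norm_num at h ⊢ <;> first | exact h | (rw [E.d_mul]; exact h) | (rw [e1]; exact h) |
          (rw [← h]; group)) (by
      intro P hP i u hi
      have r0 := hP 0 (by omega)
      have r1 := hP 1 (by omega)
      have r2 := hP 2 (by omega)
      have r3 := hP 3 (by omega)
      simp only [hRel] at r0 r1 r2 r3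
      norm_num at r0 r1 r2 r3
      -- the fixed sides
      have s1 : L.s i u (P 1) (P 2) = L.s i ((P 1)⁻¹ * u) 1 q := by
        rw [← s_base, ← r1, mul_inv_cancel_left]
      have s3 : L.s i u (P 3) (P 4) = - L.s i (w * ((P 3)⁻¹ * u)) 1 w := by
        rw [← s_inv, ← s_base, ← r3, mul_inv_cancel_left]
      have hw := hwin i (w * ((P 3)⁻¹ * u)) ((P 1)⁻¹ * u)
      have e1 := L.rg_s_add i u (P 0) (P 1) (P 2)
      have e2 := L.rg_s_add i u (P 0) (P 2) (P 3)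
      have e3 := L.rg_s_add i u (P 0) (P 3) (P 4)
      have b1 := abs_add_le (L.s i u (P 0) (P 1)) (L.s i u (P 1) (P 2))
      have b2 := abs_add_le (L.s i u (P 0) (P 2)) (L.s i u (P 2) (P 3))
      have b3 := abs_add_le (L.s i u (P 0) (P 3)) (L.s i u (P 3) (P 4))
      rw [e1] at b1
      rw [e2] at b2
      rw [e3] at b3
      rw [s1] at b1
      rw [s3, abs_neg] at b3
      by_cases h0 : ((T * Θ : ℕ) : ℤ) ≤ |L.s i u (P 0) (P 1)|
      · refine ⟨0, by omega, fun l => ?_⟩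
        simp only [hRel]
        norm_num
        exact (hTΘ i u _ _ h0 l).trans r0
      · refine ⟨2, by omega, fun l => ?_⟩
        have h2 : ((T * Θ : ℕ) : ℤ) ≤ |L.s i u (P 2) (P 3)| := by
          push Not at h0
          push_cast at h0 ⊢
          linarith
        simp only [hRel]
        norm_num
        exact (hTΘ i u _ _ h2 l).trans r2)
    P (by
      intro j hj
      rcases h4 j hj with rfl | rfl | rfl | rfl <;> simp only [hRel, hP] <;> norm_num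
      · rw [E.d_one]; exact hc1
      · unfold GH.d
        rw [show (c1 * q)⁻¹ * (c1 * q * c2) = c2 by group]
        exact hc2
      · group) ⟨c1 * q * c2 * w⁻¹, hm, by simp [hP]⟩
  have r0 := hP1 0 (by omega)
  have r1 := hP1 1 (by omega)
  have r2 := hP1 2 (by omega)
  have r3 := hP1 3 (by omega)
  simp only [hRel] at r0 r1 r2 r3
  norm_num at r0 r1 r2 r3
  refine ⟨(P' 0)⁻¹ * P' 1, (P' 2)⁻¹ * P' 3, r0, r2, ?_⟩
  rw [← r1, hP2.symm]
  have h5 : w = (P' 4)⁻¹ * P' 3 := by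
    have : w = (w⁻¹)⁻¹ := by group
    rw [this, ← r3]
    group
  rw [h5]
  group

end Pool.Agent.V5helper37.PS
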