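import Pool.Agent.V5helper37.PS.Seq
import Pool.Agent.Y872.MON.LimB

/-!
# Positive words in the groups of project MON: the limit
-/

set_option autoImplicit false

namespace Pool.Agent.V5helper37.PS

open Pool.Agent.TH54.BU Pool.Agent.Y45.MON Pool.Agent.Y872.MON

/-- the sequence and its limit -/
structure LP {r : ℕ} (w : WP r) (R0 q N Lm CA tA : ℕ) (G : ℕ → Type) [∀ n, Group (G n)]
    (H : ∀ n, GH (G n)) (x y : ∀ n, G n) (f : ∀ n, G n →* G (n + 1)) (Xs : ∀ n, Set (G n))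
    (L : Type) [Group L] (π : ∀ n, G n →* L) : Prop where
  sq : SqP w R0 q N Lm CA tA G H x y f Xs
  R1 : 1 ≤ R0
  N3 : ∀ l : ℕ, l.Prime → l ∣ N → 3 ≤ l
  sur : ∀ n, Function.Surjective (π n)
  cmp : ∀ n g, π (n + 1) (f n g) = π n g
  ker : ∀ n g, π n g = 1 → Dies f n g

variable {r : ℕ} {w : WP r} {R0 q N Lm CA tA : ℕ} {G : ℕ → Type} [∀ n, Group (G n)]
  {H : ∀ n, GH (G n)} {x y : ∀ n, G n} {f : ∀ n, G n →* G (n + 1)} {Xs : ∀ n, Set (G n)}
  {L : Type} [Group L] {π : ∀ n, G n →* L}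

namespace LP

theorem ev (D : LP w R0 q N Lm CA tA G H x y f Xs L π) : ∀ (k n : ℕ) (a b : G n),
    (H n).len a ≤ k → (H n).len (P0 w.M1 a b) ≤ k → ∃ (m : ℕ) (a' b' : G m),
      π m a' = π n a ∧ π m b' = π n b ∧ IsOfFinOrder a' ∧ IsOfFinOrder (P0 w.M1 a' b') := by
  intro k
  induction k using Nat.strong_induction_on with
  | _ k ih =>
    intro n a b ha hb
    by_cases hk : k ≤ 1
    · refine ⟨n + 1, f n a, f n b, D.cmp n a, D.cmp n b, (D.sq.st n).kill a (ha.trans hk), ?_⟩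
      have := (D.sq.st n).kill _ (hb.trans hk)
      rwa [map_P0] at this
    · have h1 := (D.sq.st n).len a
      have h2 := (D.sq.st n).len (P0 w.M1 a b)
      rw [map_P0] at h2
      obtain ⟨m, a', b', h3, h4, h5, h6⟩ := ih ((k + 1) / 2) (by omega) (n + 1) (f n a) (f n b)
        (by omega) (by omega)
      exact ⟨m, a', b', h3.trans (D.cmp n a), h4.trans (D.cmp n b), h5, h6⟩

theorem main (D : LP w R0 q N Lm CA tA G H x y f Xs L π) (A B : L) (hAB : A * B ≠ B * A) :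
    ∃ (n : ℕ) (h0 : L) (a b X : G (n + 1)), Gd (H (n + 1)) a b X ∧
      π (n + 1) a = h0 * A * h0⁻¹ ∧ π (n + 1) b = h0 * B * h0⁻¹ ∧
      NF (H (n + 1)) (x (n + 1)) (y (n + 1)) Lm CA tA X ∧
      X1 w.M1 w.m2 (h0 * A * h0⁻¹) (h0 * B * h0⁻¹) = π (n + 1) X := by
  let S : ℕ → Prop := fun m => ∃ (a b : G m) (h : L), π m a = h * A * h⁻¹ ∧
    π m b = h * B * h⁻¹ ∧ IsOfFinOrder a ∧ IsOfFinOrder (P0 w.M1 a b)
  have hS : ∃ m, S m := by
    obtain ⟨a, ha⟩ := D.sur 0 A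
    obtain ⟨b, hb⟩ := D.sur 0 B
    obtain ⟨m, a', b', h1, h2, h3, h4⟩ := D.ev (max ((H 0).len a) ((H 0).len (P0 w.M1 a b))) 0
      a b (le_max_left _ _) (le_max_right _ _)
    exact ⟨m, a', b', 1, by simp [h1, ha], by simp [h2, hb], h3, h4⟩
  classical
  obtain ⟨m, hm, hmin⟩ : ∃ m, S m ∧ ∀ k < m, ¬ S k :=
    ⟨Nat.find hS, Nat.find_spec hS, fun k hk => Nat.find_min hS hk⟩
  obtain ⟨a', b', h, h1, h2, h3, h4⟩ := hm
  have hA : A ≠ 1 := by rintro rfl; simp at hAB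
  have hB : B ≠ 1 := by rintro rfl; simp at hAB
  cases m with
  | zero =>
    exfalso
    have h5 : a' = 1 := D.sq.free a' h3
    rw [h5, map_one] at h1
    exact hA (conj_eq_one_iff.1 h1.symm)
  | succ n =>
    have hab : a' * b' ≠ b' * a' := by
      intro e
      apply hAB
      have e1 := congrArg (π (n + 1)) e
      rw [map_mul, map_mul, h1, h2] at e1
      have e2 : h * (A * B) * h⁻¹ = h * (B * A) * h⁻¹ := by
        rw [show h * (A * B) * h⁻¹ = h * A * h⁻¹ * (h * B * h⁻¹) by group, e1]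
        group
      exact mul_left_cancel (mul_right_cancel e2)
    obtain ⟨a1, b1, k, h5, h6, h7, h8, h9⟩ := (D.sq.st n).pb a' b' h3 hab h4
    have e1 : π (n + 1) (f n a1) = (π (n + 1) k * h) * A * (π (n + 1) k * h)⁻¹ := by
      rw [h8, map_mul, map_mul, map_inv, h1]
      group
    have e2 : π (n + 1) (f n b1) = (π (n + 1) k * h) * B * (π (n + 1) k * h)⁻¹ := by
      rw [h9, map_mul, map_mul, map_inv, h2]
      group
    have ha1 : a1 ≠ 1 := by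
      rintro rfl
      rw [map_one, map_one] at e1
      exact hA (conj_eq_one_iff.1 e1.symm)
    have hb1 : b1 ≠ 1 := by
      rintro rfl
      rw [map_one, map_one] at e2
      exact hB (conj_eq_one_iff.1 e2.symm)
    have h10 : ¬ IsOfFinOrder (P0 w.M1 a1 b1) := fun h10 => hmin n (by omega)
      ⟨a1, b1, π (n + 1) k * h, (D.cmp n a1).symm.trans e1, (D.cmp n b1).symm.trans e2, h5, h10⟩
    have h11 : IsOfFinOrder (f n (P0 w.M1 a1 b1)) := by
      rw [map_P0, h8, h9, conj_P0]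
      exact cf _ _ h4
    have l1 : (H n).len a1 ≤ 1 := by simpa using h6 1
    have l2 : (H n).len (a1 ^ 2) ≤ 1 := by
      have := h6 2
      rwa [zpow_ofNat] at this
    obtain ⟨x1, x2, x3⟩ := (D.sq.st n).xa a1 b1 h5 h6 h7 h10 h11
    have l3 : (H (n + 1)).len (f n b1) ≤ 1 := (D.sq.st n).len0 _ h7
    refine ⟨n, π (n + 1) k * h, f n a1, f n b1, f n (X1 w.M1 w.m2 a1 b1), ⟨?_, l3, x2, x1, ?_,
      ?_, ?_⟩, e1, e2, D.sq.nfX n a1 b1 h5 h6 h7 h10 h11, ?_⟩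
    · exact (D.sq.st n).len0 _ (l1.trans D.R1)
    · exact x3 a1 (l1.trans D.R1) ha1
    · have := x3 (a1 ^ 2) (l2.trans D.R1) (LD.sq_ne D.N3 (D.sq.tor n a1 h5) ha1)
      rwa [map_pow] at this
    · exact x3 b1 h7 hb1
    · rw [← e1, ← e2, map_X1, map_X1]

theorem pow_q (D : LP w R0 q N Lm CA tA G H x y f Xs L π) (j : Fin r) (A B : L)
    (hAB : A * B ≠ B * A) : vv w j A B ^ q = 1 := by
  obtain ⟨n, h0, a, b, X, hg, h1, h2, hNF, h3⟩ := D.main A B hAB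
  obtain ⟨v1, v2, v3, v4, -⟩ := (D.sq.st (n + 1)).wr a b X hg j
  obtain ⟨x', hx, u, k, hV⟩ := (D.sq.st (n + 2)).short _ v1 v2
  -- `k` is a unit
  obtain ⟨hx1, hx2⟩ := (D.sq.st (n + 2)).prim x' hx
  have hk : k = 1 ∨ k = -1 := by
    obtain ⟨t, ht⟩ := v3 (u * x' * u⁻¹) (by rw [hV]; group)
    rw [hV] at ht
    have e1 : (u * x' ^ k * u⁻¹) ^ t = u * x' ^ (k * t) * u⁻¹ := by
      rw [zpow_mul, conj_zpow]
    rw [e1] at ht
    have e2 : x' = x' ^ (k * t) := mul_left_cancel (mul_right_cancel ht)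
    have e3 : x' ^ (k * t - 1) = 1 := by
      rw [zpow_sub, ← e2, zpow_one, mul_inv_cancel]
    have e4 : k * t - 1 = 0 := by
      by_contra h
      exact hx1 (isOfFinOrder_iff_zpow_eq_one.2 ⟨_, h, e3⟩)
    exact Int.eq_one_or_neg_one_of_mul_eq_one (show k * t = 1 by omega)
  have hvv : h0 * vv w j A B * h0⁻¹ = π (n + 2) (u * x' ^ k * u⁻¹) := by
    rw [← hV, D.cmp, map_Wj, h1, h2, ← h3, conj_X1, conj_Wj]
    rfl
  -- the exponent of `x'`
  have hmk : Mc (H (n + 2)) (x (n + 2)) (y (n + 2)) Lm CA tA x' := by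
    refine ⟨u⁻¹, f (n + 1) (Wj w j a b X), k, ⟨v1, v2, D.sq.nfW (n + 1) a b X hg hNF j⟩, hk, ?_⟩
    rw [hV]
    rcases hk with rfl | rfl <;> group
  have hex : exq q N (H (n + 2)) (x (n + 2)) (y (n + 2)) Lm CA tA x' = q := by
    unfold exq
    rw [if_pos hmk]
  have hq : f (n + 2) (x' ^ ((q : ℤ))) = 1 := by
    rw [(D.sq.st (n + 2)).ord x' hx, hex]
  have hq2 : f (n + 2) ((u * x' ^ k * u⁻¹) ^ q) = 1 := by
    have e1 : (u * x' ^ k * u⁻¹) ^ q = u * (x' ^ (q : ℤ)) ^ k * u⁻¹ := by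
      rw [conj_pow, ← zpow_natCast, ← zpow_mul, ← zpow_mul, mul_comm]
    rw [e1, map_mul, map_mul, map_zpow, hq, one_zpow, mul_one, map_inv, mul_inv_cancel]
  have hq3 : (h0 * vv w j A B * h0⁻¹) ^ q = 1 := by
    rw [hvv, ← map_pow, ← D.cmp, hq2, map_one]
  rw [conj_pow] at hq3
  exact conj_eq_one_iff.1 hq3

theorem pos (D : LP w R0 q N Lm CA tA G H x y f Xs L π) (l1 l2 : List Bool)
    (hl1 : l1.length ≤ Lm) (hl2 : l2.length ≤ Lm)
    (h : pw (π 0 (x 0)) (π 0 (y 0)) l1 = pw (π 0 (x 0)) (π 0 (y 0)) l2) : l1 = l2 := by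
  have key : ∀ (n : ℕ) (g : G n), Dies f n g → g = pw (x n) (y n) l1 * (pw (x n) (y n) l2)⁻¹ →
      pw (x n) (y n) l1 = pw (x n) (y n) l2 := by
    intro n g hg
    induction hg with
    | one n => intro h; exact mul_inv_eq_one.1 h.symm
    | step n g hd ih =>
      intro h
      apply D.sq.inj n l1 l2 hl1 hl2
      apply ih
      rw [h, map_mul, map_inv, map_pw, map_pw, D.sq.gx, D.sq.gy]
  apply D.sq.inj0
  refine key 0 _ (D.ker 0 _ ?_) rfl
  rw [map_mul, map_inv, map_pw, map_pw, h, mul_inv_cancel]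

end LP

/-- the groups -/
theorem exists_grp (r : ℕ) (δ : Fin r → ℕ) (hδ : ∀ j, δ j = 1 ∨ δ j = 2) :
    ∃ (w : WP r) (q : ℕ), w.δ = δ ∧ q.Prime ∧
      ∀ Lm : ℕ, ∃ (L : Type) (_ : Group L) (x y : L) (N : ℕ), N ≠ 0 ∧ (∀ g : L, g ^ N = 1) ∧
        (∀ l1 l2 : List Bool, l1.length ≤ Lm → l2.length ≤ Lm → pw x y l1 = pw x y l2 → l1 = l2) ∧
        ∀ (j : Fin r) (A B : L), A * B ≠ B * A → vv w j A B ^ q = 1 := by
  obtain ⟨w, R0, T, n0, CA, tA, hw, hR0, hn0, h⟩ := exists_sq r δ hδ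
  obtain ⟨q, hq0, hq⟩ := Nat.exists_infinite_primes n0
  refine ⟨w, q, hw, hq, ?_⟩
  intro Lm
  obtain ⟨p, hp0, hp⟩ := Nat.exists_infinite_primes (max n0 (8 * (T * (Lm + 3250))))
  have hN : ∀ l : ℕ, l.Prime → l ∣ q * p → n0 ≤ l := by
    intro l hl hd
    rcases (hl.dvd_mul).1 hd with h1 | h1
    · rw [(Nat.prime_dvd_prime_iff_eq hl hq).1 h1]
      exact hq0
    · rw [(Nat.prime_dvd_prime_iff_eq hl hp).1 h1]
      exact (le_max_left _ _).trans hp0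
  have hqp : q * p ≠ 1 := by
    intro h1
    exact hq.one_lt.ne' (Nat.eq_one_of_mul_eq_one_right h1)
  obtain ⟨G, iG, H, x, y, f, Xs, hS⟩ := h q (q * p) Lm (Dvd.intro _ rfl) hq.one_lt.ne' hqp hN
    (by
      have h1 : 8 * (T * (Lm + 3250)) ≤ p := (le_max_right _ _).trans hp0
      exact h1.trans (Nat.le_mul_of_pos_left p hq.pos))
  obtain ⟨L, iL, π, p1, p2, p3⟩ := exists_lim f (fun n => (hS.st n).surj)
  have D : LP w R0 q (q * p) Lm CA tA G H x y f Xs L π :=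
    ⟨hS, hR0, fun l h1 h2 => hn0.trans (hN l h1 h2), p1, p2, p3⟩
  refine ⟨L, iL, π 0 (x 0), π 0 (y 0), q * p, Nat.mul_ne_zero hq.ne_zero hp.ne_zero, ?_,
    fun l1 l2 h1 h2 h3 => D.pos l1 l2 h1 h2 h3, fun j A B hAB => D.pow_q j A B hAB⟩
  intro g
  obtain ⟨a, rfl⟩ := D.sur 0 g
  obtain ⟨m, a', b', h1, -, h3, -⟩ := D.ev (max ((H 0).len a) ((H 0).len (P0 w.M1 a 1))) 0 a 1
    (le_max_left _ _) (le_max_right _ _)
  rw [← h1, ← map_pow, D.sq.tor m a' h3, map_one]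

end Pool.Agent.V5helper37.PS
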