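import Pool.Agent.V5helper37.PS.Desc
import Pool.Agent.TH54.BU.Angle

/-!
# Positive words in the groups of project MON: positive words along lines
-/

set_option autoImplicit false

namespace Pool.Agent.V5helper37.PS

open Pool.Agent.TH54.BU Pool.Agent.Y45.MON

variable {G : Type} [Group G] {H : GH G} {c θ T : ℕ} (L : LS H c θ T)

/-- cutting a positive word along a line which it follows -/
theorem cutLine {x y : G} {N : ℕ} (hT : Taut H x y N) {l : List Bool} (hl : l.length ≤ N)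
    (i : L.ι) (u : G) (t : ℤ) (ht : T * (2 * c + 1) ≤ t.natAbs)
    (hs : (0 < t ∧ t ≤ L.s i u 1 (pw x y l)) ∨ (t < 0 ∧ L.s i u 1 (pw x y l) ≤ t)) :
    ∃ (l' : List Bool) (c1 c2 : G), l'.length ≤ l.length ∧ H.len c1 ≤ 2 * c + 3 + H.D ∧
      H.len c2 ≤ 2 * c + 3 + H.D ∧ pw x y l' = c1 * L.x i ^ t * c2 := by
  obtain ⟨w, hw⟩ : ∃ w, w = pw x y l := ⟨_, rfl⟩
  rw [← hw] at hs
  obtain ⟨s, hsd⟩ : ∃ s, s = L.s i u 1 w := ⟨_, rfl⟩
  rw [← hsd] at hs
  have hT1 : 1 ≤ T := L.cl_T i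
  have habs : s.natAbs = t.natAbs + (s - t).natAbs := by omega
  have e1 : H.len (L.x i ^ s) = H.len (L.x i ^ (t.natAbs + (s - t).natAbs)) := by
    rw [L.wf_len_zpow i s, habs]
  have e2 := L.wf_len_zpow i t
  have e3 := L.wf_len_zpow i (s - t)
  have e4 := L.sup i t.natAbs (s - t).natAbs
  have e5 := L.wf_lin_z i t
  have e6 : 2 * c + 1 ≤ H.len (L.x i ^ t) := by
    have : T * (2 * c + 1) ≤ T * H.len (L.x i ^ t) := ht.trans e5
    exact Nat.le_of_mul_le_mul_left this hT1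
  have e7 : L.D i u 1 w = H.len (L.x i ^ s) := by rw [hsd]; rfl
  have e8 := L.D_proj i u 1 w (by omega)
  obtain ⟨y1, hy1⟩ : ∃ y1, y1 = L.pr i u 1 := ⟨_, rfl⟩
  obtain ⟨pw', hpw'⟩ : ∃ z, z = L.pr i u w := ⟨_, rfl⟩
  rw [← hy1, ← hpw'] at e8
  have e9 : pw' = y1 * L.x i ^ s := by
    rw [hpw', hy1, hsd]
    unfold LS.pr LS.s
    rw [mul_assoc, ← zpow_add]
    congr 2
    ring
  have f1 : H.d y1 (y1 * L.x i ^ t) = H.len (L.x i ^ t) := by
    unfold GH.d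
    rw [inv_mul_cancel_left]
  have f2 : H.d (y1 * L.x i ^ t) pw' = H.len (L.x i ^ (s - t)) := by
    unfold GH.d
    rw [e9]
    congr 1
    rw [sub_eq_neg_add, zpow_add, zpow_neg]
    group
  have f3 : H.d y1 pw' = H.len (L.x i ^ s) := by
    unfold GH.d
    rw [e9, inv_mul_cancel_left]
  have g1 := H.d_tri 1 y1 (y1 * L.x i ^ t)
  have g2 := H.d_tri (y1 * L.x i ^ t) pw' w
  have g3 := H.d_tri y1 pw' w
  have g4 := H.d_comm w pw'
  have g5 := H.d_tri 1 (y1 * L.x i ^ t) w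
  have g6 := H.d_one w
  have g7 := H.d_one y1
  have g8 := H.d_one (y1 * L.x i ^ t)
  obtain ⟨l', d1, d2, hl', hd1, hd2, he⟩ := hT.cut hl (e := 2 * c) (y1 := y1)
    (y2 := y1 * L.x i ^ t) (by rw [← hw]; omega) (by rw [← hw]; omega) (by omega)
  refine ⟨l', d1, d2, hl', hd1, hd2, ?_⟩
  rw [he, inv_mul_cancel_left]

variable {E : GH G} {Θ : ℕ}

theorem edgeE (C : L.Cone E Θ) (i : L.ι) (u a b : G) (h : E.d a b ≤ 1) :
    (L.On i u a ∧ L.On i u b) ∨ L.D i u a b ≤ c + θ + 1 := by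
  refine L.edge i u a b ?_
  rw [L.ce_le_one]
  exact (C.le_one _).1 h

/-- few lines are followed by a short connector -/
theorem conn_one (C : L.Cone E Θ) {a b : G} {e : ℕ} (he : E.d a b ≤ e) (i : L.ι) (S : Finset ℕ)
    (v : ℕ → G) (hv : ∀ k ∈ S, ∀ l ∈ S, (v k)⁻¹ * v l ∈ Subgroup.zpowers (L.x i) → k = l) :
    (S.filter fun k => e * (c + θ + 1) < L.D i (v k) a b).card ≤ e := by
  classical
  obtain ⟨γ, h0, h1, hG⟩ := E.exists_geod a b
  generalize E.d a b = m at he h1 hG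
  have key : ∀ k : ℕ, m * (c + θ + 1) < L.D i (v k) a b → ∃ j < m,
      (v k)⁻¹ * γ j ∈ Subgroup.zpowers (L.x i) := by
    intro k hk
    by_contra hcon
    push Not at hcon
    have path : ∀ b, b ≤ m → L.D i (v k) (γ 0) (γ b) ≤ b * (c + θ + 1) := by
      intro b
      induction b with
      | zero => intro _; simp [L.D_self]
      | succ b ih =>
        intro hb
        have i1 := ih (by omega)
        have i2 := (edgeE L C i (v k) (γ b) (γ (b + 1)) (hG.1 b (by omega))).resolve_left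
          (fun h => hcon b (by omega) h.1)
        have i3 := L.D_tri i (v k) (γ 0) (γ b) (γ (b + 1))
        rw [add_mul, one_mul]
        omega
    have := path m le_rfl
    rw [h0, h1] at this
    omega
  have hmem : ∀ k ∈ S.filter (fun k => e * (c + θ + 1) < L.D i (v k) a b), ∃ j < m,
      (v k)⁻¹ * γ j ∈ Subgroup.zpowers (L.x i) := by
    intro k hk
    rw [Finset.mem_filter] at hk
    exact key k (lt_of_le_of_lt (Nat.mul_le_mul_right _ he) hk.2)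
  choose! g hg1 hg2 using hmem
  have hcard := Finset.card_le_card_of_injOn (s := S.filter fun k =>
    e * (c + θ + 1) < L.D i (v k) a b) (t := Finset.range m) g
    (fun k hk => by simpa using hg1 k hk) (by
      intro k hk l hl hkl
      have a1 := hg2 k hk
      have a2 := hg2 l hl
      refine hv k (Finset.mem_filter.1 hk).1 l (Finset.mem_filter.1 hl).1 ?_
      have a3 : (v k)⁻¹ * v l = ((v k)⁻¹ * γ (g k)) * ((v l)⁻¹ * γ (g l))⁻¹ := by
        rw [hkl]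
        group
      rw [a3]
      exact mul_mem a1 (inv_mem a2))
  rw [Finset.card_range] at hcard
  omega

/-- two short connectors leave a line alone -/
theorem conn_two (C : L.Cone E Θ) {a b a' b' : G} {e : ℕ} (he : E.d a b ≤ e) (he' : E.d a' b' ≤ e)
    (i : L.ι) (S : Finset ℕ) (v : ℕ → G)
    (hv : ∀ k ∈ S, ∀ l ∈ S, (v k)⁻¹ * v l ∈ Subgroup.zpowers (L.x i) → k = l)
    (hS : 2 * e < S.card) : ∃ k ∈ S, L.D i (v k) a b ≤ e * (c + θ + 1) ∧
      L.D i (v k) a' b' ≤ e * (c + θ + 1) := by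
  classical
  by_contra hcon
  push Not at hcon
  have h1 := conn_one L C he i S v hv
  have h2 := conn_one L C he' i S v hv
  have h3 : S ⊆ (S.filter fun k => e * (c + θ + 1) < L.D i (v k) a b) ∪
      (S.filter fun k => e * (c + θ + 1) < L.D i (v k) a' b') := by
    intro k hk
    rw [Finset.mem_union, Finset.mem_filter, Finset.mem_filter]
    by_cases h : L.D i (v k) a b ≤ e * (c + θ + 1)
    · exact Or.inr ⟨hk, hcon k hk h⟩
    · exact Or.inl ⟨hk, not_le.1 h⟩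
  have h4 := (Finset.card_le_card h3).trans (Finset.card_union_le _ _)
  omega

/-- an element which follows a broken line up to short connectors -/
theorem follow (C : L.Cone E Θ) {i : L.ι} {f : ℕ → ℤ} {v : ℕ → G} {m e : ℕ} {er : ℤ}
    (hv0 : v 0 = 1)
    (hwin : ∀ k, k < m → |L.s i (v (k + 1)) 1 (v m) - f k| ≤ er)
    (hdist : ∀ k l : ℕ, k < l → (v (k + 1))⁻¹ * v (l + 1) ∉ Subgroup.zpowers (L.x i))
    {w h c1 c2 : G} {ε : ℤ} (hε : (ε = 1 ∧ h = v m) ∨ (ε = -1 ∧ h = (v m)⁻¹))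
    (hw : w = c1 * h * c2) (hc1 : E.len c1 ≤ e) (hc2 : E.len c2 ≤ e) (S : Finset ℕ)
    (hSm : ∀ k ∈ S, k < m) (hS : 2 * e < S.card) :
    ∃ k ∈ S, ∃ u : G, |L.s i u 1 w - ε * f k| ≤ er + 2 * (T * (e * (c + θ + 1))) := by
  have hdist' : ∀ (g0 : G), ∀ k ∈ S, ∀ l ∈ S, (g0 * v (k + 1))⁻¹ * (g0 * v (l + 1)) ∈
      Subgroup.zpowers (L.x i) → k = l := by
    intro g0 k _ l _ hkl
    have e1 : (g0 * v (k + 1))⁻¹ * (g0 * v (l + 1)) = (v (k + 1))⁻¹ * v (l + 1) := by group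
    rw [e1] at hkl
    rcases lt_trichotomy k l with h | h | h
    · exact absurd hkl (hdist k l h)
    · exact h
    · exfalso
      apply hdist l k h
      have := inv_mem hkl
      rwa [mul_inv_rev, inv_inv] at this
  obtain ⟨g0, hg0⟩ : ∃ g0 : G, (ε = 1 ∧ c1 = g0 ∧ c1 * h = g0 * v m) ∨
      (ε = -1 ∧ c1 = g0 * v m ∧ c1 * h = g0) := by
    rcases hε with ⟨h1, h2⟩ | ⟨h1, h2⟩
    · exact ⟨c1, Or.inl ⟨h1, rfl, by rw [h2]⟩⟩
    · exact ⟨c1 * (v m)⁻¹, Or.inr ⟨h1, by group, by rw [h2]⟩⟩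
  obtain ⟨k, hk, hk1, hk2⟩ := conn_two L C (a := 1) (b := c1) (a' := c1 * h) (b' := w) (e := e)
    (by rw [E.d_one]; exact hc1)
    (by
      unfold GH.d
      rw [hw, inv_mul_cancel_left]
      exact hc2) i S (fun k => g0 * v (k + 1)) (hdist' g0) hS
  refine ⟨k, hk, g0 * v (k + 1), ?_⟩
  have a1 := L.rg_s_le i (g0 * v (k + 1)) 1 c1
  have a2 := L.rg_s_le i (g0 * v (k + 1)) (c1 * h) w
  have a3 : (T * L.D i (g0 * v (k + 1)) 1 c1 : ℤ) ≤ T * (e * (c + θ + 1)) := by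
    exact_mod_cast Nat.mul_le_mul_left T hk1
  have a4 : (T * L.D i (g0 * v (k + 1)) (c1 * h) w : ℤ) ≤ T * (e * (c + θ + 1)) := by
    exact_mod_cast Nat.mul_le_mul_left T hk2
  have a5 := L.rg_s_add i (g0 * v (k + 1)) 1 c1 (c1 * h)
  have a6 := L.rg_s_add i (g0 * v (k + 1)) 1 (c1 * h) w
  have hm := hwin k (hSm k hk)
  have a7 : |L.s i (g0 * v (k + 1)) c1 (c1 * h) - ε * f k| ≤ er := by
    have b1 : ∀ p q : G, L.s i (g0 * v (k + 1)) (g0 * p) (g0 * q) = L.s i (v (k + 1)) p q :=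
      fun p q => L.wf_s_mul i g0 (v (k + 1)) p q
    rcases hg0 with ⟨h1, h2, h3⟩ | ⟨h1, h2, h3⟩
    · rw [h3, h1, one_mul]
      have b2 := b1 1 (v m)
      rw [mul_one, ← h2] at b2
      rw [← h2, b2]
      exact hm
    · rw [h3, h1, h2]
      have b2 := b1 (v m) 1
      rw [mul_one] at b2
      rw [b2, L.rg_s_symm i (v (k + 1)) 1 (v m), neg_one_mul, ← abs_neg]
      have : -(-L.s i (v (k + 1)) 1 (v m) - -f k) = L.s i (v (k + 1)) 1 (v m) - f k := by ring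
      rw [this]
      exact hm
  rw [← a6, ← a5]
  obtain ⟨s1, hs1⟩ : ∃ s, s = L.s i (g0 * v (k + 1)) 1 c1 := ⟨_, rfl⟩
  obtain ⟨s2, hs2⟩ : ∃ s, s = L.s i (g0 * v (k + 1)) c1 (c1 * h) := ⟨_, rfl⟩
  obtain ⟨s3, hs3⟩ : ∃ s, s = L.s i (g0 * v (k + 1)) (c1 * h) w := ⟨_, rfl⟩
  rw [← hs1] at a1
  rw [← hs3] at a2
  rw [← hs2] at a7
  rw [← hs1, ← hs2, ← hs3]
  have e1 : s1 + s2 + s3 - ε * f k = s1 + (s2 - ε * f k) + s3 := by ring
  rw [e1]
  have t1 := abs_add_le (s1 + (s2 - ε * f k)) s3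
  have t2 := abs_add_le s1 (s2 - ε * f k)
  linarith

end Pool.Agent.V5helper37.PS
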