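import Pool.Agent.V5helper37.PS.Line
import Pool.Agent.Y45.MON.Main

/-!
# Positive words in the groups of project MON: the special words are not followed
-/

set_option autoImplicit false

namespace Pool.Agent.V5helper37.PS

open Pool.Agent.TH54.BU Pool.Agent.Y45.MON

/-- the positive words of length at most `N` do not follow `tA` periods of `g` -/
def NF {G : Type} [Group G] (H : GH G) (x y : G) (N CA tA : ℕ) (g : G) : Prop :=
  ∀ l : List Bool, l.length ≤ N → ∀ c1 c2 : G, H.len c1 ≤ CA → H.len c2 ≤ CA → ∀ t : ℤ,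
    t.natAbs = tA → pw x y l ≠ c1 * g ^ t * c2

section step

variable {G : Type} [Group G] {H : GH G} {c θ T : ℕ} {L : LS H c θ T} {n : L.ι → ℕ}
  {M : Subgroup G} [M.Normal] {E : GH G} {Θ : ℕ} {Q H' : GH (G ⧸ M)} {κ R : ℕ} {x y : G} {N : ℕ}

/-- the error of the windows -/
def Er (L : LS H c θ T) (ρ e : ℕ) : ℕ := 2 * (T * (ρ + c + θ) + L.thr) + 2 * (T * (e * (c + θ + 1)))

/-- lifting an equation in the quotient, with a conjugated power in the middle -/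
theorem StD.liftU (S : StD L n M E Θ Q H' κ R) (hW : WB L n x y N) {CA tu : ℕ} {g h u : G}
    (hg : g = u * h * u⁻¹) (hu : H.len u ≤ tu)
    (hh : ∀ (i : L.ι) (u' : G), 8 * |L.s i u' 1 h| ≤ n i) {l : List Bool} (hl : l.length ≤ N)
    {c1 c2 : G ⧸ M} (h1 : H'.len c1 ≤ CA) (h2 : H'.len c2 ≤ CA)
    (he : pw (x : G ⧸ M) (y : G ⧸ M) l = c1 * (g : G ⧸ M) * c2) :
    ∃ d1 d2 : G, E.len d1 ≤ κ * CA + tu ∧ E.len d2 ≤ κ * CA + tu ∧ pw x y l = d1 * h * d2 := by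
  have hpw : ∀ l, pw (x : G ⧸ M) (y : G ⧸ M) l = ((pw x y l : G) : G ⧸ M) := fun l =>
    (map_pw (QuotientGroup.mk' M) x y l).symm
  obtain ⟨b1, h3, h3'⟩ := S.lift c1
  obtain ⟨b2, h4, h4'⟩ := S.lift c2
  have hCE : ∀ (q' : G ⧸ M) (g : G), E.len g = Q.len q' → H'.len q' ≤ CA → E.len g ≤ κ * CA := by
    intro q' g hg hq'
    rw [hg]
    exact (S.le_kap q').trans (Nat.mul_le_mul_left κ hq')
  have i1 := hCE _ _ h3' h1
  have i2 := hCE _ _ h4' h2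
  have hEu : E.len u ≤ tu := (S.cone.le u).trans hu
  have j1 : E.len (b1 * u) ≤ κ * CA + tu := (E.len_mul _ _).trans (by omega)
  have j2 : E.len (u⁻¹ * b2) ≤ κ * CA + tu := (E.len_mul _ _).trans (by rw [E.len_inv]; omega)
  have hbig : ∀ i, (8 : ℤ) * (T * (2 * c + 1) + 2 * (T * Θ) + 24 * L.thr + 1) ≤ n i := fun i => by
    exact_mod_cast S.big i
  refine lift4 L S.fv S.cone (fun i => by have := S.big i; omega) j1 j2 ?_ ?_
  · rw [← QuotientGroup.eq_one_iff]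
    have e1 : (b1 * u * h * (u⁻¹ * b2) * (pw x y l)⁻¹ : G) = b1 * g * b2 * (pw x y l)⁻¹ := by
      rw [hg]
      group
    rw [e1, QuotientGroup.mk_mul, QuotientGroup.mk_mul, QuotientGroup.mk_mul,
      QuotientGroup.mk_inv, ← hpw, he, h3, h4, mul_inv_cancel]
  · intro i u1 u2
    have a1 := hW l hl i u1
    have a2 := hh i u2
    have a3 := hbig i
    have p1 : (0 : ℤ) ≤ T * (2 * c + 1) := by positivity
    have p2 : (0 : ℤ) ≤ T * Θ := by positivity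
    have p3 : (0 : ℤ) ≤ L.thr := by positivity
    linarith

/-- positive words do not follow the words `X1` -/
theorem StD.nfX (S : StD L n M E Θ Q H' κ R) {K B p L1 : ℕ} (Sv0 : Sv L K B p L1 Θ n E M Q)
    (hT : Taut H x y N) (hW : WB L n x y N) {Cb R1 : ℕ} (hnb : ¬ Bad H x y N Cb R1)
    (hCb : 2 * c + 3 + H.D ≤ Cb) {R0 ρ M1 m2 CA tA ts : ℕ} (hR0 : 1 ≤ R0)
    (hρ : R0 + 2 * tb H.D c T (2 * R0 + 2) + 1 ≤ ρ) (hm2 : cst L Θ ρ < m2)
    (hn1 : ∀ i, 100 * ((T * (2 * R0 + 2) + 1) * m2 + cst L Θ ρ) ≤ n i)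
    (hn2 : ∀ i, T * (2 * R0 + 2 + θ + 100 * (H.D + c + 1)) + T * Θ + T * (2 * c + 1) +
      24 * L.thr + 1 ≤ n i)
    (htA : 2 * (κ * CA + tb H.D c T (2 * R0 + 2)) < tA) (hts : T * (R1 + 2 * c + 1) ≤ ts)
    (hts0 : 0 < ts)
    (hm3 : ts + Er L ρ (κ * CA + tb H.D c T (2 * R0 + 2)) ≤ m2)
    {a1 b1 : G} (ha : IsOfFinOrder a1) (hsp : Sp H a1) (hb : H.len b1 ≤ R0)
    (hP : ¬ IsOfFinOrder (P0 M1 a1 b1)) (hPf : IsOfFinOrder ((P0 M1 a1 b1 : G) : G ⧸ M)) :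
    NF H' (x : G ⧸ M) (y : G ⧸ M) N CA tA ((X1 M1 m2 a1 b1 : G) : G ⧸ M) := by
  have hlP : H.len (P0 M1 a1 b1) ≤ 2 * R0 + 2 := by
    unfold P0
    have h1 := H.len_mul (a1 * b1 * a1 ^ M1) b1⁻¹
    have h2 := H.len_mul (a1 * b1) (a1 ^ M1)
    have h3 := H.len_mul a1 b1
    have h4 : H.len a1 ≤ 1 := by simpa using hsp 1
    have h5 : H.len (a1 ^ M1) ≤ 1 := by simpa using hsp (M1 : ℤ)
    rw [H.len_inv] at h1
    omega
  have hsh : L.Short (P0 M1 a1 b1) :=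
    aBdd G H c θ T L K B p L1 Θ n E M Q Sv0 (2 * R0 + 2) hn2 _ hP hlP hPf
  obtain ⟨i, u, e, hPu, he0, heT, hu⟩ := aFrame G H c θ T L (2 * R0 + 2) _ hsh hP hlP
  obtain ⟨t0, ht0⟩ : ∃ t0, t0 = tb H.D c T (2 * R0 + 2) := ⟨_, rfl⟩
  rw [← ht0] at hu hρ htA hm3
  obtain ⟨α, hα⟩ : ∃ α, α = u⁻¹ * a1 * u := ⟨_, rfl⟩
  obtain ⟨φ, hφ⟩ : ∃ φ : ℤ, φ = e * m2 := ⟨_, rfl⟩
  have hxinf : ¬ IsOfFinOrder (L.x i) := (Sv0.prim i).1
  have hla : H.len a1 ≤ 1 := by simpa using hsp 1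
  have hlα : H.len α ≤ ρ := by
    have := Y914.MON.len_conj H u a1
    rw [← hα] at this
    omega
  have hαf : IsOfFinOrder α := by
    have h1 := (Y914.MON.fin_conj u⁻¹ a1).mpr ha
    rw [inv_inv] at h1
    rw [hα]
    exact h1
  have hαz : α ∉ Subgroup.zpowers (L.x i) := by
    intro hz
    obtain ⟨k, hk⟩ := Subgroup.mem_zpowers_iff.mp hz
    have hk0 : k = 0 := by
      by_contra hk0
      apply hxinf
      rw [← hk] at hαf
      obtain ⟨m, hm, h1⟩ := isOfFinOrder_iff_pow_eq_one.mp hαf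
      rw [isOfFinOrder_iff_zpow_eq_one]
      refine ⟨k * m, mul_ne_zero hk0 (by exact_mod_cast hm.ne'), ?_⟩
      rw [zpow_mul, zpow_natCast]
      exact h1
    rw [hk0, zpow_zero] at hk
    have ha1 : a1 = 1 := by
      have : u⁻¹ * a1 * u = 1 := by rw [← hα]; exact hk.symm
      calc a1 = u * (u⁻¹ * a1 * u) * u⁻¹ := by group
        _ = 1 := by rw [this]; group
    apply hP
    have : P0 M1 a1 b1 = 1 := by
      unfold P0
      rw [ha1]
      group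
    rw [this]
    exact IsOfFinOrder.one
  have hφabs : |φ| = |e| * m2 := by
    rw [hφ, abs_mul, Nat.abs_cast]
  have he1 : 1 ≤ |e| := Int.one_le_abs he0
  have hφm : (m2 : ℤ) ≤ |φ| := by
    rw [hφabs]
    nlinarith
  have hφ1 : (cst L Θ ρ : ℤ) < |φ| := by
    have h1 : (cst L Θ ρ : ℤ) < m2 := by exact_mod_cast hm2
    linarith
  have hφ2 : ∀ i, 100 * (|φ| + cst L Θ ρ) ≤ n i := by
    intro j
    have h1 : (100 * ((T * (2 * R0 + 2) + 1) * m2 + cst L Θ ρ) : ℤ) ≤ n j := by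
      exact_mod_cast hn1 j
    have h2 : |φ| ≤ (T * (2 * R0 + 2) + 1) * m2 := by
      rw [hφabs]
      have h3 : |e| ≤ (T * (2 * R0 + 2) + 1 : ℤ) := by exact_mod_cast heT
      exact mul_le_mul_of_nonneg_right h3 (by positivity)
    linarith
  -- the broken line
  obtain ⟨ω, hω⟩ : ∃ ω : G, ω = α * L.x i ^ φ * α⁻¹ * L.x i ^ (-φ) := ⟨_, rfl⟩
  obtain ⟨v, hv⟩ : ∃ v : ℕ → G, v = Y655.MON.rv (L.x i) α φ := ⟨_, rfl⟩
  obtain ⟨cs, hcs⟩ : ∃ cs : ℕ → G, cs = fun k => if k % 2 = 0 then α else α⁻¹ := ⟨_, rfl⟩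
  obtain ⟨f, hf⟩ : ∃ f : ℕ → ℤ, f = fun k => if k % 2 = 0 then φ else -φ := ⟨_, rfl⟩
  have hv0 : v 0 = 1 := by rw [hv]; rfl
  have hvs : ∀ k, v (k + 1) = v k * cs k * L.x i ^ f k := by
    intro k
    rw [hv, hcs, hf]
    rfl
  have hBr : Br L i cs f v := by
    refine ⟨hv0, hvs, fun k => ?_⟩
    rw [hcs]
    simp only
    split_ifs
    · exact hαz
    · exact fun h => hαz (inv_mem_iff.1 h)
  have hlen : ∀ k, H.len (cs k) ≤ ρ := by
    intro k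
    rw [hcs]
    simp only
    split_ifs
    · exact hlα
    · rw [H.len_inv]
      exact hlα
  have hvN : ∀ N, v (2 * N) = ω ^ N := by
    intro N
    rw [hv, hω]
    exact Y655.MON.rv_even _ _ _ N
  have hfabs : ∀ k, |f k| = |φ| := by
    intro k
    rw [hf]
    simp only
    split_ifs
    · rfl
    · rw [abs_neg]
  obtain ⟨hg1, -⟩ := aGwin G H c θ T L i cs f v ρ φ.natAbs hBr hlen
    (fun k => by
      rw [hfabs]
      have h1 : (cst L 0 ρ : ℤ) ≤ cst L Θ ρ := by exact_mod_cast Y614.MON.cst_mono L Θ ρ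
      linarith) (fun k => by rw [hfabs, Int.abs_eq_natAbs])
  have hcstge := Y614.MON.cst_ge L Θ ρ
  have hc0 : (cst L 0 ρ : ℤ) ≤ cst L Θ ρ := by exact_mod_cast Y614.MON.cst_mono L Θ ρ
  have hwin : ∀ (j : L.ι) (w : G) (N : ℕ), |L.s j w 1 (ω ^ N)| ≤ |φ| + cst L Θ ρ := by
    intro j w N
    have := hg1 j w (2 * N)
    rw [hv0, hvN, ← Int.abs_eq_natAbs] at this
    linarith
  have hPC : ∀ k, PC L i (T * (ρ + c + θ)) (cs k) := fun k =>
    aPcb G H c θ T L i (cs k) ρ (hBr.nc k) (hlen k)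
  have hK : cst L Θ ρ = 1000 * (T * c) + 1000 * (T * θ) + 1000 * (T * Θ) + 1000 * (T * ρ) +
      1000 * T + 1000 := by
    unfold cst
    ring
  have hthr : L.thr = 2 * (T * c) + T * θ + T := by
    unfold LS.thr
    ring
  have hPP : T * (ρ + c + θ) = T * ρ + T * c + T * θ := by ring
  obtain ⟨-, -, -, -, hg3, hg4, -⟩ := aGen G H c θ T L i cs f v (T * (ρ + c + θ)) hBr hPC
    (fun k => by
      rw [hfabs]
      have h1 : 4 * (T * (ρ + c + θ)) + 8 * L.thr + 8 < cst L Θ ρ := by omega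
      have h2 : ((4 * (T * (ρ + c + θ)) + 8 * L.thr + 8 : ℕ) : ℤ) < cst L Θ ρ := by
        exact_mod_cast h1
      linarith)
  -- the power of `P`
  have hPm : P0 M1 a1 b1 ^ m2 = u * L.x i ^ φ * u⁻¹ := by
    rw [hPu, conj_pow, hφ, zpow_mul, zpow_natCast]
  have hX : X1 M1 m2 a1 b1 = u * ω * u⁻¹ := by
    unfold X1
    rw [hPm, hω, hα]
    group
  intro l hl c1 c2 hc1 hc2 t ht hpwl
  have hXt : (X1 M1 m2 a1 b1) ^ t = u * ω ^ t * u⁻¹ := by rw [hX, conj_zpow]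
  have hωt : (0 ≤ t ∧ ω ^ t = v (2 * tA)) ∨ (t < 0 ∧ ω ^ t = (v (2 * tA))⁻¹) := by
    rcases le_or_gt 0 t with h | h
    · left
      refine ⟨h, ?_⟩
      have : t = (tA : ℤ) := by omega
      rw [this, zpow_natCast, hvN]
    · right
      refine ⟨h, ?_⟩
      have : t = -(tA : ℤ) := by omega
      rw [this, zpow_neg, zpow_natCast, hvN]
  obtain ⟨d1, d2, hd1, hd2, hde⟩ := S.liftU hW (g := X1 M1 m2 a1 b1 ^ t) (h := ω ^ t) (u := u)
    (CA := CA) (tu := t0) hXt hu (fun i u' => by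
      have h1 : |L.s i u' 1 (ω ^ t)| ≤ |φ| + cst L Θ ρ := by
        rcases hωt with ⟨-, h⟩ | ⟨-, h⟩
        · rw [h, hvN]
          exact hwin i u' tA
        · rw [h, s_inv, abs_neg, hvN]
          exact hwin i _ tA
      have h2 := hφ2 i
      have h3 : (0 : ℤ) ≤ |φ| := abs_nonneg _
      have h4 : (0 : ℤ) ≤ cst L Θ ρ := by positivity
      linarith) hl hc1 hc2 (by rw [hpwl, QuotientGroup.mk_zpow])
  -- the sign
  obtain ⟨ε, hε1, hε⟩ : ∃ ε : ℤ, (ε = 1 ∨ ε = -1) ∧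
      ((ε = 1 ∧ ω ^ t = v (2 * tA)) ∨ (ε = -1 ∧ ω ^ t = (v (2 * tA))⁻¹)) := by
    rcases hωt with ⟨-, h⟩ | ⟨-, h⟩
    · exact ⟨1, Or.inl rfl, Or.inl ⟨rfl, h⟩⟩
    · exact ⟨-1, Or.inr rfl, Or.inr ⟨rfl, h⟩⟩
  have hwin3 : ∀ k, k < 2 * tA → |L.s i (v (k + 1)) 1 (v (2 * tA)) - f k| ≤
      2 * ((T * (ρ + c + θ) : ℕ) + (L.thr : ℤ)) := by
    intro k hk
    have := hg3 k (2 * tA) (by omega)
    rw [hv0] at this
    exact this
  have fol := fun (S0 : Finset ℕ) (h1 : ∀ k ∈ S0, k < 2 * tA) (h2 : 2 * (κ * CA + t0) < S0.card) =>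
    follow L S.cone hv0 hwin3 hg4 hε hde hd1 hd2 S0 h1 h2
  obtain ⟨k1, hk1, u1, hu1⟩ := fol ((Finset.range tA).image fun k => 2 * k)
    (by
      intro k hk
      obtain ⟨j, hj, rfl⟩ := Finset.mem_image.1 hk
      have := Finset.mem_range.1 hj
      omega)
    (by
      rw [Finset.card_image_of_injective _ (fun a b h => by simpa using h), Finset.card_range]
      exact htA)
  obtain ⟨k2, hk2, u2, hu2⟩ := fol ((Finset.range tA).image fun k => 2 * k + 1)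
    (by
      intro k hk
      obtain ⟨j, hj, rfl⟩ := Finset.mem_image.1 hk
      have := Finset.mem_range.1 hj
      omega)
    (by
      rw [Finset.card_image_of_injective _ (fun a b h => by simpa using h), Finset.card_range]
      exact htA)
  have hf1 : f k1 = φ := by
    obtain ⟨j, hj, rfl⟩ := Finset.mem_image.1 hk1
    rw [hf]
    simp
  have hf2 : f k2 = -φ := by
    obtain ⟨j, hj, rfl⟩ := Finset.mem_image.1 hk2
    rw [hf]
    simp only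
    rw [if_neg (by omega)]
  have hErr : (2 : ℤ) * ((T * (ρ + c + θ) : ℕ) + (L.thr : ℤ)) +
      2 * (T * (((κ * CA + t0 : ℕ) : ℤ) * (c + θ + 1))) = (Er L ρ (κ * CA + t0) : ℕ) := by
    unfold Er
    push_cast
    ring
  rw [hErr, hf1] at hu1
  rw [hErr, hf2] at hu2
  have hm3' : (ts : ℤ) + (Er L ρ (κ * CA + t0) : ℕ) ≤ m2 := by exact_mod_cast hm3
  obtain ⟨v1, v2, hv1, hv2⟩ : ∃ v1 v2 : G, (ts : ℤ) ≤ L.s i v1 1 (pw x y l) ∧
      L.s i v2 1 (pw x y l) ≤ -(ts : ℤ) := by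
    rw [abs_le] at hu1 hu2
    have h0 : (ts : ℤ) + (Er L ρ (κ * CA + t0) : ℕ) ≤ |φ| := hm3'.trans hφm
    rcases hε1 with h1 | h1 <;> rw [h1] at hu1 hu2 <;>
      rcases le_total 0 φ with h2 | h2 <;>
      first | rw [abs_of_nonneg h2] at h0 | rw [abs_of_nonpos h2] at h0
    · exact ⟨u1, u2, by linarith [hu1.1], by linarith [hu2.2]⟩
    · exact ⟨u2, u1, by linarith [hu2.1], by linarith [hu1.2]⟩
    · exact ⟨u2, u1, by linarith [hu2.1], by linarith [hu1.2]⟩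
    · exact ⟨u1, u2, by linarith [hu1.1], by linarith [hu2.2]⟩
  have hTle : T * (2 * c + 1) ≤ ts := le_trans (Nat.mul_le_mul_left _ (by omega)) hts
  have hts1 : (0 : ℤ) < ts := by exact_mod_cast hts0
  obtain ⟨l1, p1, p2, hl1, hp1, hp2, hq1⟩ := cutLine L hT hl i v1 (ts : ℤ) (by simpa using hTle)
    (Or.inl ⟨hts1, hv1⟩)
  obtain ⟨l2, p3, p4, hl2, hp3, hp4, hq2⟩ := cutLine L hT hl i v2 (-(ts : ℤ))
    (by simpa using hTle) (Or.inr ⟨by omega, hv2⟩)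
  apply hnb
  refine ⟨L.x i ^ (ts : ℤ), p1, p2, p3, p4, l1, l2, by omega, by omega, by omega, by omega,
    by omega, by omega, ?_, hq1, ?_⟩
  · have h1 := L.wf_lin_z i (ts : ℤ)
    rw [Int.natAbs_natCast] at h1
    have h2 : T * (R1 + 2 * c + 1) ≤ T * H.len (L.x i ^ (ts : ℤ)) := hts.trans h1
    have h3 := Nat.le_of_mul_le_mul_left h2 (L.cl_T i)
    omega
  · rw [hq2, zpow_neg]

end step

end Pool.Agent.V5helper37.PS
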