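import Pool.Agent.V5helper37.PS.NF

/-!
# Positive words in the groups of project MON: the words `Wj` are not followed, small windows
-/

set_option autoImplicit false

namespace Pool.Agent.V5helper37.PS

open Pool.Agent.TH54.BU Pool.Agent.Y45.MON

section step

variable {G : Type} [Group G] {H : GH G} {c θ T : ℕ} {L : LS H c θ T} {n : L.ι → ℕ}
  {M : Subgroup G} [M.Normal] {E : GH G} {Θ : ℕ} {Q H' : GH (G ⧸ M)} {κ R : ℕ} {x y : G} {N : ℕ}

/-- positive words do not follow the words `Wj` -/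
theorem StD.nfW (S : StD L n M E Θ Q H' κ R) (hT : Taut H x y N) (hW : WB L n x y N)
    (hshort : ∀ z, ¬ IsOfFinOrder z → H.len z ≤ 1 → L.Short z) {r : ℕ} (w : WP r)
    {μ : Fin r → ℕ → ℕ} {ρ B0 F : ℕ} (hδ : ∀ j, w.δ j = 1 ∨ w.δ j = 2)
    (hμ : ∀ j l, (μ j l).Prime) (hper : ∀ j l, μ j (l + 4) = μ j l)
    (hw : ∀ j (l : Fin 4), w.e j l = B0 * μ j l) (hρ : 2 * tb H.D c T 1 + 4 ≤ ρ)
    (hB0 : cst L Θ ρ < B0) (hF : ∀ j l, (T + 1) * (B0 * μ j l) ≤ F)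
    (hn : ∀ i, 100 * (F + cst L Θ ρ) ≤ n i) {CA tA : ℕ}
    (hCA : 2 * c + 3 + H.D + tb H.D c T 1 ≤ CA) (htA : 2 * (κ * CA + tb H.D c T 1) < tA)
    (htA2 : T * (2 * c + 1) ≤ tA) (hB1 : tA + Er L ρ (κ * CA + tb H.D c T 1) ≤ B0)
    {a b X : G} (hG : Gd H a b X) (hNF : NF H x y N CA tA X) (j : Fin r) :
    NF H' (x : G ⧸ M) (y : G ⧸ M) N CA tA ((Wj w j a b X : G) : G ⧸ M) := by
  obtain ⟨i, u, e, hu, hX, hfr⟩ := Y811.MON.gd_frame aFrame hshort w hδ hw hρ hG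
  obtain ⟨hfrj, hWj⟩ := hfr j
  obtain ⟨t0, ht0⟩ : ∃ t0, t0 = tb H.D c T 1 := ⟨_, rfl⟩
  rw [← ht0] at hu hρ hCA htA hB1
  obtain ⟨f, hf⟩ : ∃ f : ℕ → ℤ, f = fun l => e * (B0 * μ j l) := ⟨_, rfl⟩
  obtain ⟨cs, hcs⟩ : ∃ cs : ℕ → G, cs = cs4 (w.δ j) (u⁻¹ * a * u) (u⁻¹ * b * u) := ⟨_, rfl⟩
  have hPL : Y614.MON.PL L (cst L Θ ρ) ρ F i cs f := by
    rw [hcs, hf]
    exact Y614.MON.frPL hμ hper hB0 hF hfrj
  obtain ⟨v, hv⟩ : ∃ v : ℕ → G, v = Y614.MON.bv (L.x i) cs f := ⟨_, rfl⟩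
  have hBr : Br L i cs f v := by
    rw [hv]
    exact hPL.br
  have hv0 : v 0 = 1 := by rw [hv]; rfl
  have hvN : ∀ N, v (4 * N) = v 4 ^ N := by
    intro N
    rw [hv]
    exact Y614.MON.bv_pow hPL.pc hPL.pf N
  have hv4 : v 4 = wd (w.δ j) (fun l => e * (B0 * μ j l)) (u⁻¹ * a * u) (u⁻¹ * b * u) (L.x i) := by
    rw [hv, hcs, ← hf]
    exact Y614.MON.bv_wd _ _ _ _ _
  have hwin : ∀ (j : L.ι) (w : G) (N : ℕ), |L.s j w 1 (v 4 ^ N)| ≤ F + cst L Θ ρ := by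
    intro j w N
    have h1 := Y614.MON.win aGwin hPL j w N
    rw [hv]
    have h2 : (cst L 0 ρ : ℤ) ≤ cst L Θ ρ := by exact_mod_cast Y614.MON.cst_mono L Θ ρ
    linarith
  have hPC : ∀ k, PC L i (T * (ρ + c + θ)) (cs k) := fun k =>
    aPcb G H c θ T L i (cs k) ρ (hBr.nc k) (hPL.len k)
  have hK : cst L Θ ρ = 1000 * (T * c) + 1000 * (T * θ) + 1000 * (T * Θ) + 1000 * (T * ρ) +
      1000 * T + 1000 := by
    unfold cst
    ring
  have hthr : L.thr = 2 * (T * c) + T * θ + T := by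
    unfold LS.thr
    ring
  have hPP : T * (ρ + c + θ) = T * ρ + T * c + T * θ := by ring
  obtain ⟨-, -, -, -, hg3, hg4, -⟩ := aGen G H c θ T L i cs f v (T * (ρ + c + θ)) hBr hPC
    (fun k => by
      have h0 := hPL.big k
      have h1 : 4 * (T * (ρ + c + θ)) + 8 * L.thr + 8 < cst L Θ ρ := by omega
      have h2 : ((4 * (T * (ρ + c + θ)) + 8 * L.thr + 8 : ℕ) : ℤ) < cst L Θ ρ := by
        exact_mod_cast h1
      have h3 : (0 : ℤ) ≤ cst L Θ ρ := by positivity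
      linarith)
  intro l hl c1 c2 hc1 hc2 t ht hpwl
  have hWt : (Wj w j a b X) ^ t = u * v 4 ^ t * u⁻¹ := by rw [hWj, conj_zpow, hv4]
  have hωt : (0 ≤ t ∧ v 4 ^ t = v (4 * tA)) ∨ (t < 0 ∧ v 4 ^ t = (v (4 * tA))⁻¹) := by
    rcases le_or_gt 0 t with h | h
    · left
      refine ⟨h, ?_⟩
      have : t = (tA : ℤ) := by omega
      rw [this, zpow_natCast, hvN]
    · right
      refine ⟨h, ?_⟩
      have : t = -(tA : ℤ) := by omega
      rw [this, zpow_neg, zpow_natCast, hvN]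
  obtain ⟨d1, d2, hd1, hd2, hde⟩ := S.liftU hW (g := Wj w j a b X ^ t) (h := v 4 ^ t) (u := u)
    (CA := CA) (tu := t0) hWt hu (fun i u' => by
      have h1 : |L.s i u' 1 (v 4 ^ t)| ≤ F + cst L Θ ρ := by
        rcases hωt with ⟨-, h⟩ | ⟨-, h⟩
        · rw [h, hvN]
          exact hwin i u' tA
        · rw [h, s_inv, abs_neg, hvN]
          exact hwin i _ tA
      have h2 : (100 : ℤ) * (F + cst L Θ ρ) ≤ n i := by exact_mod_cast hn i
      have h3 : (0 : ℤ) ≤ F := Nat.cast_nonneg F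
      have h4 : (0 : ℤ) ≤ cst L Θ ρ := Nat.cast_nonneg _
      linarith) hl hc1 hc2 (by rw [hpwl, QuotientGroup.mk_zpow])
  obtain ⟨ε, hε1, hε⟩ : ∃ ε : ℤ, (ε = 1 ∨ ε = -1) ∧
      ((ε = 1 ∧ v 4 ^ t = v (4 * tA)) ∨ (ε = -1 ∧ v 4 ^ t = (v (4 * tA))⁻¹)) := by
    rcases hωt with ⟨-, h⟩ | ⟨-, h⟩
    · exact ⟨1, Or.inl rfl, Or.inl ⟨rfl, h⟩⟩
    · exact ⟨-1, Or.inr rfl, Or.inr ⟨rfl, h⟩⟩
  have hwin3 : ∀ k, k < 4 * tA → |L.s i (v (k + 1)) 1 (v (4 * tA)) - f k| ≤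
      2 * ((T * (ρ + c + θ) : ℕ) + (L.thr : ℤ)) := by
    intro k hk
    have := hg3 k (4 * tA) (by omega)
    rw [hv0] at this
    exact this
  obtain ⟨k1, hk1, u1, hu1⟩ := follow L S.cone hv0 hwin3 hg4 hε hde hd1 hd2 (Finset.range tA)
    (fun k hk => by
      have := Finset.mem_range.1 hk
      omega) (by rw [Finset.card_range]; exact htA)
  have hErr : (2 : ℤ) * ((T * (ρ + c + θ) : ℕ) + (L.thr : ℤ)) +
      2 * (T * (((κ * CA + t0 : ℕ) : ℤ) * (c + θ + 1))) = (Er L ρ (κ * CA + t0) : ℕ) := by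
    unfold Er
    push_cast
    ring
  rw [hErr] at hu1
  have he1 : 1 ≤ |e| := Int.one_le_abs hfrj.e0
  have hB1' : (tA : ℤ) + (Er L ρ (κ * CA + t0) : ℕ) ≤ B0 := by exact_mod_cast hB1
  have hfk : |e| * tA + (Er L ρ (κ * CA + t0) : ℕ) ≤ |ε * f k1| := by
    have h1 : |ε * f k1| = |e| * (B0 * μ j k1) := by
      have h2 : |ε| = 1 := by rcases hε1 with h | h <;> rw [h] <;> simp
      rw [abs_mul, h2, one_mul, hf]
      simp only
      rw [abs_mul, abs_of_nonneg (a := (B0 : ℤ) * μ j k1) (by positivity)]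
    rw [h1]
    have h2 : (2 : ℤ) ≤ μ j k1 := by exact_mod_cast (hμ j k1).two_le
    have h3 : (0 : ℤ) ≤ (Er L ρ (κ * CA + t0) : ℕ) := by positivity
    have h4 : (0 : ℤ) ≤ B0 := by positivity
    have h5 : (0 : ℤ) ≤ tA := by positivity
    have h6 : (B0 : ℤ) * 1 ≤ B0 * μ j k1 := mul_le_mul_of_nonneg_left (by linarith) h4
    calc |e| * tA + (Er L ρ (κ * CA + t0) : ℕ)
        ≤ |e| * tA + |e| * (Er L ρ (κ * CA + t0) : ℕ) := by nlinarith
      _ = |e| * (tA + (Er L ρ (κ * CA + t0) : ℕ)) := by ring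
      _ ≤ |e| * (B0 * μ j k1) := mul_le_mul_of_nonneg_left (by linarith) (by linarith)
  have hs : |e| * tA ≤ |L.s i u1 1 (pw x y l)| := by
    have h1 := abs_sub_abs_le_abs_sub (ε * f k1) (L.s i u1 1 (pw x y l))
    rw [abs_sub_comm] at h1
    linarith
  -- the number of periods
  obtain ⟨t', ht', hst⟩ : ∃ t' : ℤ, t'.natAbs = tA ∧
      ((0 < e * t' ∧ e * t' ≤ L.s i u1 1 (pw x y l)) ∨
        (e * t' < 0 ∧ L.s i u1 1 (pw x y l) ≤ e * t')) := by
    have htA0 : (0 : ℤ) < tA := by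
      have : 0 < tA := by omega
      exact_mod_cast this
    rcases le_total 0 (L.s i u1 1 (pw x y l)) with h0 | h0
    · rw [abs_of_nonneg h0] at hs
      rcases lt_or_gt_of_ne hfrj.e0 with h1 | h1
      · refine ⟨-tA, by simp, Or.inl ?_⟩
        rw [abs_of_neg h1] at hs
        constructor
        · nlinarith
        · linarith
      · refine ⟨tA, by simp, Or.inl ?_⟩
        rw [abs_of_pos h1] at hs
        constructor
        · positivity
        · linarith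
    · rw [abs_of_nonpos h0] at hs
      rcases lt_or_gt_of_ne hfrj.e0 with h1 | h1
      · refine ⟨tA, by simp, Or.inr ?_⟩
        rw [abs_of_neg h1] at hs
        constructor
        · nlinarith
        · linarith
      · refine ⟨-tA, by simp, Or.inr ?_⟩
        rw [abs_of_pos h1] at hs
        constructor
        · nlinarith
        · linarith
  obtain ⟨l1, p1, p2, hl1, hp1, hp2, hq1⟩ := cutLine L hT hl i u1 (e * t') (by
    rw [Int.natAbs_mul, ht']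
    have h1 : 1 ≤ e.natAbs := Int.natAbs_pos.2 hfrj.e0
    have h2 : 1 * tA ≤ e.natAbs * tA := Nat.mul_le_mul_right _ h1
    omega) hst
  refine hNF l1 (by omega) (p1 * u⁻¹) (u * p2) ?_ ?_ t' ht' ?_
  · have h1 := H.len_mul p1 u⁻¹
    rw [H.len_inv] at h1
    omega
  · have h1 := H.len_mul u p2
    omega
  · rw [hq1, hX, conj_zpow, zpow_mul]
    group

/-- the windows of positive words are small -/
theorem wb (hT : Taut H x y N) (hprim : ∀ i, Prim (L.x i))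
    (hshort : ∀ z, ¬ IsOfFinOrder z → H.len z ≤ 1 → L.Short z) {CA tA : ℕ}
    (hCA : 2 * c + 3 + H.D + tb H.D c T 1 ≤ CA) (htA2 : T * (2 * c + 1) ≤ tA) (htA0 : 0 < tA)
    (Mk0 : G → Prop) (hMk : ∀ g, Mk0 g → ¬ IsOfFinOrder g ∧ H.len g ≤ 1 ∧ NF H x y N CA tA g)
    (hn : ∀ i, 8 * (T * (N + c)) ≤ n i ∨ (8 * tA ≤ n i ∧ ∃ (v g : G) (ε : ℤ), Mk0 g ∧
      (ε = 1 ∨ ε = -1) ∧ L.x i = v * g ^ ε * v⁻¹)) : WB L n x y N := by
  intro l hl i u
  rcases hn i with h | ⟨h, v, g, ε, hg, hε, hx⟩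
  · have h1 := L.s_le i u 1 (pw x y l)
    rw [H.d_one] at h1
    have h2 := len_pw_le H hT.lx hT.ly l
    have h3 : T * (H.len (pw x y l) + c) ≤ T * (N + c) := Nat.mul_le_mul_left _ (by omega)
    have h4 : ((T * (H.len (pw x y l) + c) : ℕ) : ℤ) ≤ ((T * (N + c) : ℕ) : ℤ) := by
      exact_mod_cast h3
    have h5 : ((8 * (T * (N + c)) : ℕ) : ℤ) ≤ n i := by exact_mod_cast h
    push_cast at h1 h4 h5
    linarith
  · by_contra hcon
    push Not at hcon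
    have h0 : ((8 * tA : ℕ) : ℤ) ≤ n i := by exact_mod_cast h
    push_cast at h0
    have hs : (tA : ℤ) ≤ |L.s i u 1 (pw x y l)| := by linarith
    obtain ⟨g1, g2, g3⟩ := hMk g hg
    obtain ⟨j, u', e, hgu, he0, heT, hu'⟩ := aFrame G H c θ T L 1 g (hshort g g1 g2) g1 g2
    -- `x i` is conjugate to `x j ^ (ε e)`
    have hxj : L.rt i 1 1 = L.rt j (v * u') (e * ε) := by
      unfold LS.rt
      rw [zpow_one, one_mul, inv_one, mul_one, hx, hgu, conj_zpow, zpow_mul]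
      group
    have hij : i = j ∧ (1 : G)⁻¹ * (v * u') ∈ Subgroup.zpowers (L.x i) := by
      by_contra hc
      have hne : i = j → (1 : G)⁻¹ * (v * u') ∉ Subgroup.zpowers (L.x i) := by
        intro h1 h2
        exact hc ⟨h1, h2⟩
      exact one_ne_zero (L.rg_common hne hxj)
    obtain ⟨rfl, hz⟩ := hij
    rw [inv_one, one_mul] at hz
    obtain ⟨k, hk⟩ := Subgroup.mem_zpowers_iff.1 hz
    have he1 : e * ε = 1 := by
      unfold LS.rt at hxj
      rw [zpow_one, one_mul, inv_one, mul_one, ← hk] at hxj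
      have h1 : L.x i ^ k * L.x i ^ (e * ε) * (L.x i ^ k)⁻¹ = L.x i ^ (e * ε) := by
        rw [← zpow_neg, ← zpow_add, ← zpow_add]
        congr 1
        ring
      rw [h1] at hxj
      by_contra hne
      apply (hprim i).1
      rw [isOfFinOrder_iff_zpow_eq_one]
      refine ⟨e * ε - 1, sub_ne_zero.2 hne, ?_⟩
      rw [zpow_sub, ← hxj, zpow_one, mul_inv_cancel]
    have heε : e = ε := by
      rcases hε with h | h <;> rw [h] at he1 ⊢ <;> omega
    have hxg : ∀ t : ℤ, L.x i ^ t = u'⁻¹ * g ^ (ε * t) * u' := by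
      intro t
      rw [hgu, conj_zpow, ← zpow_mul, heε]
      have : ε * (ε * t) = t := by
        rcases hε with h | h <;> rw [h] <;> ring
      rw [this]
      group
    have htA1 : (0 : ℤ) < tA := by exact_mod_cast htA0
    obtain ⟨t, ht, hst⟩ : ∃ t : ℤ, t.natAbs = tA ∧ ((0 < t ∧ t ≤ L.s i u 1 (pw x y l)) ∨
        (t < 0 ∧ L.s i u 1 (pw x y l) ≤ t)) := by
      rcases le_total 0 (L.s i u 1 (pw x y l)) with h1 | h1
      · rw [abs_of_nonneg h1] at hs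
        exact ⟨tA, by simp, Or.inl ⟨htA1, hs⟩⟩
      · rw [abs_of_nonpos h1] at hs
        exact ⟨-tA, by simp, Or.inr ⟨by omega, by omega⟩⟩
    obtain ⟨l1, p1, p2, hl1, hp1, hp2, hq1⟩ := cutLine L hT hl i u t (by rw [ht]; exact htA2) hst
    refine g3 l1 (by omega) (p1 * u'⁻¹) (u' * p2) ?_ ?_ (ε * t) ?_ ?_
    · have h1 := H.len_mul p1 u'⁻¹
      rw [H.len_inv] at h1
      omega
    · have h1 := H.len_mul u' p2
      omega
    · rw [Int.natAbs_mul, ht]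
      rcases hε with h | h <;> rw [h] <;> simp
    · rw [hq1, hxg]
      group

end step

end Pool.Agent.V5helper37.PS
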