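import Pool.Agent.V5helper37.PS.NW
import Pool.Agent.V5helper37.PS.BDesc
import Pool.Agent.Y331.MON.Step5

/-!
# Positive words in the groups of project MON: the positive part of one step
-/

set_option autoImplicit false

namespace Pool.Agent.V5helper37.PS

open Pool.Agent.TH54.BU Pool.Agent.Y45.MON Pool.Agent.Y331.MON

/-- the part of the conclusions of one step which concerns the positive words -/
structure PosStep {r : ℕ} (w : WP r) (R0 T CA tA : ℕ) {G : Type} [Group G] (ex : G → ℕ) (H : GH G)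
    (M : Subgroup G) [M.Normal] (H' : GH (G ⧸ M)) (x y : G) (Lm : ℕ) : Prop where
  taut : Taut H' (x : G ⧸ M) (y : G ⧸ M) Lm
  nb : ¬ Bad H' (x : G ⧸ M) (y : G ⧸ M) Lm 6507 26031
  nfX : ∀ a1 b1 : G, IsOfFinOrder a1 → Sp H a1 → H.len b1 ≤ R0 → ¬ IsOfFinOrder (P0 w.M1 a1 b1) →
    IsOfFinOrder ((P0 w.M1 a1 b1 : G) : G ⧸ M) →
    NF H' (x : G ⧸ M) (y : G ⧸ M) Lm CA tA ((X1 w.M1 w.m2 a1 b1 : G) : G ⧸ M)
  nfW : ∀ a b X, Gd H a b X → NF H x y Lm CA tA X → ∀ j,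
    NF H' (x : G ⧸ M) (y : G ⧸ M) Lm CA tA ((Wj w j a b X : G) : G ⧸ M)
  inj : ∀ l1 l2 : List Bool, l1.length ≤ Lm → l2.length ≤ Lm →
    pw (x : G ⧸ M) (y : G ⧸ M) l1 = pw (x : G ⧸ M) (y : G ⧸ M) l2 → pw x y l1 = pw x y l2

/-- one step, with the positive words -/
def StepP : Prop := ∀ (r : ℕ) (δ : Fin r → ℕ), (∀ j, δ j = 1 ∨ δ j = 2) →
  ∃ (w : WP r) (R0 K B T n0 CA tA : ℕ), w.δ = δ ∧ 1 ≤ R0 ∧ 500 ≤ K ∧ 8 * K + 20 ≤ B ∧ 1 ≤ T ∧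
    w.M1 < n0 ∧ 3 ≤ n0 ∧
    ∀ N : ℕ, (∀ q : ℕ, q.Prime → q ∣ N → n0 ≤ q) → ∀ (G : Type) [Group G] (H : GH G),
      H.D = 4 → H.Stab T → H.Acy K B → Tor G N →
      (∀ g : G, IsOfFinOrder g → ∃ u : G, Sp H (u * g * u⁻¹)) →
      ∀ ex : G → ℕ, (∀ g, ex g ∣ N ∧ ex g ≠ 1) → (∀ g u, ex (u * g * u⁻¹) = ex g) →
      (∀ g, ex g⁻¹ = ex g) →
      ∃ (M : Subgroup G) (_ : M.Normal) (H' : GH (G ⧸ M)) (Xs : Set G),
        H'.D = 4 ∧ H'.Stab T ∧ H'.Acy K B ∧ Tor (G ⧸ M) N ∧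
        StepX w R0 ex Xs H H' (QuotientGroup.mk' M) ∧
        ∀ (x y : G) (Lm : ℕ) (Mk0 : G → Prop), Taut H x y Lm → ¬ Bad H x y Lm 6507 26031 →
          (∀ g, Mk0 g → ¬ IsOfFinOrder g ∧ H.len g ≤ 1 ∧ NF H x y Lm CA tA g) →
          (∀ g, 8 * (T * (Lm + 3250)) ≤ ex g ∨ ∃ (v g0 : G) (ε : ℤ), Mk0 g0 ∧
            (ε = 1 ∨ ε = -1) ∧ g = v * g0 ^ ε * v⁻¹) → PosStep w R0 T CA tA ex H M H' x y Lm

/-- equal positive words in the quotient are equal -/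
theorem pos_inj {G : Type} [Group G] {H : GH G} {c θ T : ℕ} {L : LS H c θ T} {n : L.ι → ℕ}
    {M : Subgroup G} [M.Normal] (F : Fv L n M) (hn : ∀ i, 16 * L.thr + 16 ≤ n i) {x y : G} {N : ℕ}
    (hW : WB L n x y N) (l1 l2 : List Bool) (hl1 : l1.length ≤ N) (hl2 : l2.length ≤ N)
    (h : pw (x : G ⧸ M) (y : G ⧸ M) l1 = pw (x : G ⧸ M) (y : G ⧸ M) l2) :
    pw x y l1 = pw x y l2 := by
  have hpw : ∀ l, pw (x : G ⧸ M) (y : G ⧸ M) l = ((pw x y l : G) : G ⧸ M) := fun l =>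
    (map_pw (QuotientGroup.mk' M) x y l).symm
  rw [hpw, hpw] at h
  by_contra hne
  have hm : pw x y l1 * (pw x y l2)⁻¹ ∈ M := by
    rw [← QuotientGroup.eq_one_iff, QuotientGroup.mk_mul, QuotientGroup.mk_inv, h, mul_inv_cancel]
  obtain ⟨i, u, hu⟩ := F.gr _ hm (fun h => hne (mul_inv_eq_one.1 h)) (pw x y l2)
  rw [inv_mul_cancel_right] at hu
  have h1 := L.rg_s_add i u (pw x y l2) 1 (pw x y l1)
  rw [L.rg_s_symm i u 1 (pw x y l2)] at h1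
  have h2 := abs_add_le (-L.s i u 1 (pw x y l2)) (L.s i u 1 (pw x y l1))
  rw [h1, abs_neg] at h2
  have h3 := hW l1 hl1 i u
  have h4 := hW l2 hl2 i u
  have h5 : (16 : ℤ) * L.thr + 16 ≤ n i := by exact_mod_cast hn i
  have h6 : (0 : ℤ) ≤ L.thr := Nat.cast_nonneg _
  linarith

attribute [local irreducible] tb

/-- the positive part of one step -/
theorem posPart {G : Type} [Group G] {H : GH G} {θ T : ℕ} {L : LS H 3250 θ T} {n : L.ι → ℕ}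
    {M : Subgroup G} [M.Normal] {E : GH G} {Θ : ℕ} {Q F' : GH (G ⧸ M)} {κ Rec K B N L1 : ℕ}
    (hD : H.D = 4) (S : Sv L K B N L1 Θ n E M Q) (hSD : StD L n M E Θ Q F' κ Rec)
    (hlen : ∀ g : G, F'.len (g : G ⧸ M) ≤ (H.len g + 1) / 2)
    (hsh1 : ∀ z, ¬ IsOfFinOrder z → H.len z ≤ 1 → L.Short z)
    {r : ℕ} (w : WP r) (hδ : ∀ j, w.δ j = 1 ∨ w.δ j = 2) {R0 CA tA ts ρ F B0 : ℕ}
    (hm2 : w.m2 = B0) (hw : ∀ j (l : Fin 4), w.e j l = B0 * mu j l)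
    (g1 : 1 ≤ R0) (g2 : R0 + 2 * tb 4 3250 T (2 * R0 + 2) + 4 ≤ ρ)
    (g2' : tb 4 3250 T 1 ≤ tb 4 3250 T (2 * R0 + 2))
    (g3 : cst L Θ ρ < B0) (g4 : ∀ i, 100 * ((T * (2 * R0 + 2) + 1) * B0 + cst L Θ ρ) ≤ n i)
    (g5 : ∀ i, T * (2 * R0 + 2 + θ + 100 * (4 + 3250 + 1)) + T * Θ + T * (2 * 3250 + 1) +
      24 * L.thr + 1 ≤ n i)
    (g6 : CA = 6507 + tb 4 3250 T 1) (g7 : 2 * (κ * CA + tb 4 3250 T (2 * R0 + 2)) < tA)
    (g8 : T * (2 * 3250 + 1) ≤ tA) (g9 : T * (26031 + 2 * 3250 + 1) < ts)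
    (g10 : ts + Er L ρ (κ * CA + tb 4 3250 T (2 * R0 + 2)) ≤ B0)
    (g11 : tA + Er L ρ (κ * CA + tb 4 3250 T 1) ≤ B0) (g12 : ∀ i, 8 * tA ≤ n i)
    (hF : ∀ (j : Fin r) (l : ℕ), (T + 1) * (B0 * mu j l) ≤ F) (c5 : ∀ i, 100 * (F + cst L Θ ρ) ≤ n i)
    (g13 : ∀ i, 16 * L.thr + 16 ≤ n i)
    (ex : G → ℕ) (hex : ∀ i, n i = ex (L.x i)) (x y : G) (Lm : ℕ) (Mk0 : G → Prop)
    (hTa : Taut H x y Lm) (hnb : ¬ Bad H x y Lm 6507 26031)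
    (hMk : ∀ g, Mk0 g → ¬ IsOfFinOrder g ∧ H.len g ≤ 1 ∧ NF H x y Lm CA tA g)
    (hex' : ∀ g, 8 * (T * (Lm + 3250)) ≤ ex g ∨ ∃ (v g0 : G) (ε : ℤ), Mk0 g0 ∧
            (ε = 1 ∨ ε = -1) ∧ g = v * g0 ^ ε * v⁻¹) :
    PosStep w R0 T CA tA ex H M F' x y Lm := by
  have k1 : 2 * 3250 + 3 + H.D + tb H.D 3250 T 1 ≤ CA := by
    rw [hD, g6]
  have k2 : 0 < tA := lt_of_le_of_lt (Nat.zero_le _) g7
  have k3 : 0 < ts := lt_of_le_of_lt (Nat.zero_le _) g9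
  have k4 : R0 + 2 * tb H.D 3250 T (2 * R0 + 2) + 1 ≤ ρ := by
    rw [hD]
    exact le_trans (Nat.add_le_add_left (by norm_num) _) g2
  have k5 : 2 * tb H.D 3250 T 1 + 4 ≤ ρ := by
    rw [hD]
    calc 2 * tb 4 3250 T 1 + 4 ≤ 2 * tb 4 3250 T (2 * R0 + 2) + 4 :=
          Nat.add_le_add_right (Nat.mul_le_mul_left 2 g2') 4
      _ ≤ R0 + 2 * tb 4 3250 T (2 * R0 + 2) + 4 := by
          rw [Nat.add_assoc]
          exact Nat.le_add_left _ _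
      _ ≤ ρ := g2
  have k6 : 2 * (κ * CA + tb H.D 3250 T 1) < tA := by
    rw [hD]
    exact lt_of_le_of_lt (Nat.mul_le_mul_left 2 (Nat.add_le_add_left g2' _)) g7
  have k7 : 9 * H.D + 3 ≤ 6507 := by
    rw [hD]
    norm_num
  have k8 : 2 * 3250 + 3 + H.D ≤ 6507 := by
    rw [hD]
  have hW : WB L n x y Lm := by
    refine wb hTa S.prim hsh1 (CA := CA) (tA := tA) k1 g8 k2 Mk0 hMk ?_
    intro i
    rcases hex' (L.x i) with h | h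
    · rw [← hex] at h
      exact Or.inl h
    · exact Or.inr ⟨g12 i, h⟩
  refine
    { taut := hSD.taut hTa hW hlen
      nb := fun hb => hnb (hSD.bad hTa hW k7 (by norm_num) hb)
      nfX := ?_
      nfW := ?_
      inj := ?_ }
  · intro a1 b1 ha hsp hb hP hPf
    rw [hm2]
    exact hSD.nfX (R0 := R0) (ρ := ρ) (ts := ts) S hTa hW hnb k8 g1
      k4 g3 g4 (fun i => by rw [hD]; exact g5 i) (by rw [hD]; exact g7) g9.le
      k3 (by rw [hD]; exact g10) ha hsp hb hP hPf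
  · intro a b X hG hNF j
    exact hSD.nfW hTa hW hsh1 w (μ := mu) (ρ := ρ) (B0 := B0) (F := F) hδ mu_prime mu_per hw
      k5 g3 hF c5 k1 k6 g8 (by rw [hD]; exact g11) hG hNF j
  · exact pos_inj hSD.fv g13 hW

/-- the numbers -/
theorem numP {T κ θ Θ R0 CA e1 tA ts e2 ρ cc th tb1 tb2 : ℕ} (hT1 : 1 ≤ T) (htb : tb1 ≤ tb2)
    (he1 : e1 = κ * CA + tb2) (he2 : e2 = e1 * (3250 + θ + 1))
    (hρ : ρ = R0 + 2 * tb2 + 5 + (e2 + tA + ts))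
    (hcc : cc = 1000 * (T * (3250 + θ + Θ + ρ + 1) + 1)) (hth : th = T * (2 * 3250 + θ + 1)) :
    ts + (2 * (T * (ρ + 3250 + θ) + th) + 2 * (T * ((κ * CA + tb2) * (3250 + θ + 1)))) ≤ cc + 1 ∧
    tA + (2 * (T * (ρ + 3250 + θ) + th) + 2 * (T * ((κ * CA + tb1) * (3250 + θ + 1)))) ≤ cc + 1 := by
  have q1 : (κ * CA + tb1) * (3250 + θ + 1) ≤ (κ * CA + tb2) * (3250 + θ + 1) :=
    Nat.mul_le_mul_right _ (by omega)
  have q2 := Nat.mul_le_mul_left T q1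
  have q3 : (κ * CA + tb2) * (3250 + θ + 1) = e2 := by rw [he2, he1]
  rw [q3] at q2 ⊢
  have p1 : T * ρ = T * (R0 + 2 * tb2 + 5) + T * e2 + T * tA + T * ts := by
    rw [hρ]
    ring
  have p2 : ts ≤ T * ts := Nat.le_mul_of_pos_left _ hT1
  have p3 : tA ≤ T * tA := Nat.le_mul_of_pos_left _ hT1
  have p4 : cc = 1000 * (T * 3250) + 1000 * (T * θ) + 1000 * (T * Θ) + 1000 * (T * ρ) +
      1000 * T + 1000 := by
    rw [hcc]
    ring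
  have p5 : th = 2 * (T * 3250) + T * θ + T := by
    rw [hth]
    ring
  have p6 : T * (ρ + 3250 + θ) = T * ρ + T * 3250 + T * θ := by ring
  rw [p6]
  clear hρ hcc hth he1 he2 q1 q3
  generalize T * ρ = a1 at *
  generalize T * (R0 + 2 * tb2 + 5) = a2 at *
  generalize T * e2 = a3 at *
  generalize T * tA = a4 at *
  generalize T * ts = a5 at *
  generalize T * θ = a6 at *
  generalize T * Θ = a7 at *
  generalize T * ((κ * CA + tb1) * (3250 + θ + 1)) = a8 at *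
  constructor <;> omega

end Pool.Agent.V5helper37.PS
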