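import Pool.Agent.V5helper37.PS.Step
import Pool.Agent.V5helper37.PS.Base
import Pool.Agent.Y45.MON.StmS

/-!
# Positive words in the groups of project MON: the sequence of groups
-/

set_option autoImplicit false

namespace Pool.Agent.V5helper37.PS

open Pool.Agent.TH54.BU Pool.Agent.Y45.MON

/-- the short elements of infinite order whose powers are not followed by positive words -/
def Mq {G : Type} [Group G] (H : GH G) (x y : G) (Lm CA tA : ℕ) (g : G) : Prop :=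
  ¬ IsOfFinOrder g ∧ H.len g ≤ 1 ∧ NF H x y Lm CA tA g

/-- the conjugates of these elements and of their inverses -/
def Mc {G : Type} [Group G] (H : GH G) (x y : G) (Lm CA tA : ℕ) (g : G) : Prop :=
  ∃ (v g0 : G) (ε : ℤ), Mq H x y Lm CA tA g0 ∧ (ε = 1 ∨ ε = -1) ∧ g = v * g0 ^ ε * v⁻¹

section

variable {G : Type} [Group G] {H : GH G} {x y : G} {Lm CA tA : ℕ}

theorem Mc.conj {g : G} (h : Mc H x y Lm CA tA g) (u : G) : Mc H x y Lm CA tA (u * g * u⁻¹) := by
  obtain ⟨v, g0, ε, h1, h2, h3⟩ := h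
  refine ⟨u * v, g0, ε, h1, h2, ?_⟩
  rw [h3]
  group

theorem Mc.conj_iff {g : G} (u : G) :
    Mc H x y Lm CA tA (u * g * u⁻¹) ↔ Mc H x y Lm CA tA g := by
  constructor
  · intro h
    have h1 := h.conj u⁻¹
    have h2 : u⁻¹ * (u * g * u⁻¹) * u⁻¹⁻¹ = g := by group
    rwa [h2] at h1
  · exact fun h => h.conj u

theorem Mc.inv {g : G} (h : Mc H x y Lm CA tA g) : Mc H x y Lm CA tA g⁻¹ := by
  obtain ⟨v, g0, ε, h1, h2, h3⟩ := h
  refine ⟨v, g0, -ε, h1, by omega, ?_⟩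
  rw [h3]
  group

theorem Mc.inv_iff {g : G} : Mc H x y Lm CA tA g⁻¹ ↔ Mc H x y Lm CA tA g := by
  constructor
  · intro h
    have := h.inv
    rwa [inv_inv] at this
  · exact fun h => h.inv

open Classical in
/-- the exponents -/
noncomputable def exq (q N : ℕ) (H : GH G) (x y : G) (Lm CA tA : ℕ) (g : G) : ℕ :=
  if Mc H x y Lm CA tA g then q else N

end

/-- a stage of the construction -/
structure Stg (K B T N Lm : ℕ) : Type 1 where
  G : Type
  grp : Group G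
  H : GH G
  x : G
  y : G
  hD : H.D = 4
  stab : H.Stab T
  acy : H.Acy K B
  tor : Tor G N
  ts : ∀ g : G, IsOfFinOrder g → ∃ u : G, Sp H (u * g * u⁻¹)
  taut : Taut H x y Lm
  nb : ¬ Bad H x y Lm 6507 26031

instance {K B T N Lm : ℕ} (s : Stg K B T N Lm) : Group s.G := s.grp

/-- the relation between successive stages -/
structure RlP {r : ℕ} {K B T N Lm : ℕ} (w : WP r) (R0 q CA tA : ℕ)
    (s s' : Stg K B T N Lm) (f : s.G →* s'.G) (Xs : Set s.G) : Prop where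
  st : StepX w R0 (exq q N s.H s.x s.y Lm CA tA) Xs s.H s'.H f
  gx : f s.x = s'.x
  gy : f s.y = s'.y
  inj : ∀ l1 l2 : List Bool, l1.length ≤ Lm → l2.length ≤ Lm →
    pw s'.x s'.y l1 = pw s'.x s'.y l2 → pw s.x s.y l1 = pw s.x s.y l2
  nfX : ∀ a1 b1 : s.G, IsOfFinOrder a1 → Sp s.H a1 → s.H.len b1 ≤ R0 →
    ¬ IsOfFinOrder (P0 w.M1 a1 b1) → IsOfFinOrder (f (P0 w.M1 a1 b1)) →
    NF s'.H s'.x s'.y Lm CA tA (f (X1 w.M1 w.m2 a1 b1))
  nfW : ∀ a b X, Gd s.H a b X → NF s.H s.x s.y Lm CA tA X → ∀ j,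
    NF s'.H s'.x s'.y Lm CA tA (f (Wj w j a b X))

/-- the sequence of groups -/
structure SqP {r : ℕ} (w : WP r) (R0 q N Lm CA tA : ℕ) (G : ℕ → Type) [∀ n, Group (G n)]
    (H : ∀ n, GH (G n)) (x y : ∀ n, G n) (f : ∀ n, G n →* G (n + 1)) (Xs : ∀ n, Set (G n)) :
    Prop where
  free : ∀ g : G 0, IsOfFinOrder g → g = 1
  tor : ∀ n, Tor (G n) N
  st : ∀ n, StepX w R0 (exq q N (H n) (x n) (y n) Lm CA tA) (Xs n) (H n) (H (n + 1)) (f n)
  ts : ∀ (n : ℕ) (g : G n), IsOfFinOrder g → ∃ u : G n, Sp (H n) (u * g * u⁻¹)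
  gx : ∀ n, f n (x n) = x (n + 1)
  gy : ∀ n, f n (y n) = y (n + 1)
  inj0 : ∀ l1 l2 : List Bool, pw (x 0) (y 0) l1 = pw (x 0) (y 0) l2 → l1 = l2
  inj : ∀ (n : ℕ) (l1 l2 : List Bool), l1.length ≤ Lm → l2.length ≤ Lm →
    pw (x (n + 1)) (y (n + 1)) l1 = pw (x (n + 1)) (y (n + 1)) l2 →
    pw (x n) (y n) l1 = pw (x n) (y n) l2
  nfX : ∀ (n : ℕ) (a1 b1 : G n), IsOfFinOrder a1 → Sp (H n) a1 → (H n).len b1 ≤ R0 →
    ¬ IsOfFinOrder (P0 w.M1 a1 b1) → IsOfFinOrder (f n (P0 w.M1 a1 b1)) →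
    NF (H (n + 1)) (x (n + 1)) (y (n + 1)) Lm CA tA (f n (X1 w.M1 w.m2 a1 b1))
  nfW : ∀ (n : ℕ) (a b X : G n), Gd (H n) a b X → NF (H n) (x n) (y n) Lm CA tA X → ∀ j,
    NF (H (n + 1)) (x (n + 1)) (y (n + 1)) Lm CA tA (f n (Wj w j a b X))

/-- the existence of the sequence -/
theorem exists_sq (r : ℕ) (δ : Fin r → ℕ) (hδ : ∀ j, δ j = 1 ∨ δ j = 2) :
    ∃ (w : WP r) (R0 T n0 CA tA : ℕ), w.δ = δ ∧ 1 ≤ R0 ∧ 3 ≤ n0 ∧
      ∀ (q N Lm : ℕ), q ∣ N → q ≠ 1 → N ≠ 1 → (∀ l : ℕ, l.Prime → l ∣ N → n0 ≤ l) →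
        8 * (T * (Lm + 3250)) ≤ N →
        ∃ (G : ℕ → Type) (_ : ∀ n, Group (G n)) (H : ∀ n, GH (G n)) (x y : ∀ n, G n)
          (f : ∀ n, G n →* G (n + 1)) (Xs : ∀ n, Set (G n)),
          SqP w R0 q N Lm CA tA G H x y f Xs := by
  classical
  obtain ⟨w, R0, K, B, T, n0, CA, tA, hw, hR0, hK, hB, hT, -, hn0, hstep⟩ := stepP r δ hδ
  refine ⟨w, R0, T, n0, CA, tA, hw, hR0, hn0, ?_⟩
  intro q N Lm hqN hq1 hN1 hN hbig
  obtain ⟨hS0, hA0⟩ := base0
  have htf : ∀ g : FreeGroup (Fin 2), IsOfFinOrder g → g = 1 := by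
    intro g hg
    obtain ⟨m, hm, h⟩ := isOfFinOrder_iff_pow_eq_one.1 hg
    have h1 : g ^ m = 1 ^ m := by rw [h, one_pow]
    exact pow_left_injective hm.ne' h1
  let s0 : Stg K B T N Lm :=
    { G := FreeGroup (Fin 2)
      grp := inferInstance
      H := freeGH (Fin 2) 4
      x := FreeGroup.of 0
      y := FreeGroup.of 1
      hD := rfl
      stab := by
        intro g hg m
        calc m ≤ 1 * (freeGH (Fin 2) 4).len (g ^ m) := hS0 g hg m
          _ ≤ T * (freeGH (Fin 2) 4).len (g ^ m) := Nat.mul_le_mul_right _ hT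
      acy := hA0 K B hB
      tor := fun g hg => by rw [htf g hg, one_pow]
      ts := fun g hg => ⟨1, fun k => by
        rw [htf g hg]
        simp [GH.len_one]⟩
      taut := taut0 Lm
      nb := nb0 Lm }
  have hnext : ∀ s : Stg K B T N Lm, ∃ (s' : Stg K B T N Lm)
      (f' : s.G →* s'.G) (Xs' : Set s.G), RlP w R0 q CA tA s s' f' Xs' := by
    intro s
    obtain ⟨M, iM, H', Xs, h1, h2, h3, h4, h5, h6⟩ := hstep N hN s.G s.H s.hD s.stab s.acy s.tor
      s.ts (exq q N s.H s.x s.y Lm CA tA)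
      (by
        intro g
        unfold exq
        split_ifs
        · exact ⟨hqN, hq1⟩
        · exact ⟨dvd_rfl, hN1⟩)
      (by
        intro g u
        unfold exq
        rw [Mc.conj_iff])
      (by
        intro g
        unfold exq
        rw [Mc.inv_iff])
    have h7 := h6 s.x s.y Lm (Mq s.H s.x s.y Lm CA tA) s.taut s.nb (fun g hg => hg)
      (by
        intro g
        by_cases hg : Mc s.H s.x s.y Lm CA tA g
        · exact Or.inr hg
        · left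
          unfold exq
          rw [if_neg hg]
          exact hbig)
    let s' : Stg K B T N Lm :=
      { G := s.G ⧸ M
        grp := inferInstance
        H := H'
        x := (s.x : s.G ⧸ M)
        y := (s.y : s.G ⧸ M)
        hD := h1
        stab := h2
        acy := h3
        tor := h4
        ts := h5.ts
        taut := h7.taut
        nb := h7.nb }
    exact ⟨s', QuotientGroup.mk' M, Xs, h5, rfl, rfl, h7.inj, h7.nfX, h7.nfW⟩
  choose nx fx Xx hR using hnext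
  let s : ℕ → Stg K B T N Lm := fun n => Nat.rec s0 (fun _ s => nx s) n
  refine ⟨fun n => (s n).G, fun n => (s n).grp, fun n => (s n).H, fun n => (s n).x,
    fun n => (s n).y, fun n => fx (s n), fun n => Xx (s n), ?_⟩
  exact @SqP.mk r w R0 q N Lm CA tA (fun n => (s n).G) (fun n => (s n).grp) (fun n => (s n).H)
    (fun n => (s n).x) (fun n => (s n).y) (fun n => fx (s n)) (fun n => Xx (s n))
    htf (fun n => (s n).tor) (fun n => (hR (s n)).st) (fun n => (s n).ts)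
    (fun n => (hR (s n)).gx) (fun n => (hR (s n)).gy) (fun l1 l2 h => pw_inj h)
    (fun n => (hR (s n)).inj) (fun n => (hR (s n)).nfX) (fun n => (hR (s n)).nfW)

end Pool.Agent.V5helper37.PS
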