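import Pool.Agent.Y45.MON.StmS
import Pool.Agent.TH54.BU.Close
import Pool.Agent.TH54.BU.Rigid
import Pool.Agent.TH54.BU.Key
import Pool.Agent.TH54.BU.Guess
import Pool.Agent.TH54.BU.ConeA

/-!
# Positive words in the groups of project MON: words and cutting
-/

set_option autoImplicit false

namespace Pool.Agent.V5helper37.PS

open Pool.Agent.TH54.BU Pool.Agent.Y45.MON

section words

variable {G : Type*} [Group G]

/-- the value of a positive word -/
def pw (x y : G) (l : List Bool) : G := (l.map fun b => if b then x else y).prod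

theorem pw_nil (x y : G) : pw x y [] = 1 := rfl

theorem pw_append (x y : G) (l1 l2 : List Bool) : pw x y (l1 ++ l2) = pw x y l1 * pw x y l2 := by
  simp [pw]

theorem pw_single (x y : G) (b : Bool) : pw x y [b] = if b then x else y := by simp [pw]

theorem map_pw {G' : Type*} [Group G'] (f : G →* G') (x y : G) (l : List Bool) :
    f (pw x y l) = pw (f x) (f y) l := by
  unfold pw
  rw [map_list_prod, List.map_map]
  congr 1
  apply List.map_congr_left
  intro b _
  simp only [Function.comp]
  split_ifs <;> rfl

/-- positive words of length at most `n` are almost geodesic -/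
structure Taut (H : GH G) (x y : G) (n : ℕ) : Prop where
  lx : H.len x ≤ 1
  ly : H.len y ≤ 1
  add : ∀ l1 l2 : List Bool, (l1 ++ l2).length ≤ n →
    H.len (pw x y l1) + H.len (pw x y l2) ≤ H.len (pw x y (l1 ++ l2)) + 3

theorem ivt (f : ℕ → ℕ) (a n r : ℕ) (han : a ≤ n) (h1 : f a ≤ r) (h2 : r ≤ f n)
    (hs : ∀ k, k < n → f (k + 1) ≤ f k + 1) : ∃ k, a ≤ k ∧ k ≤ n ∧ f k = r := by
  induction n, han using Nat.le_induction with
  | base => exact ⟨a, le_rfl, le_rfl, le_antisymm h1 h2⟩
  | succ n hn ih =>
    by_cases h : r ≤ f n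
    · obtain ⟨k, hk1, hk2, hk3⟩ := ih h (fun k hk => hs k (by omega))
      exact ⟨k, hk1, by omega, hk3⟩
    · have := hs n (by omega)
      exact ⟨n + 1, by omega, le_rfl, by omega⟩

theorem len_pw_le (H : GH G) {x y : G} (hx : H.len x ≤ 1) (hy : H.len y ≤ 1) (l : List Bool) :
    H.len (pw x y l) ≤ l.length := by
  induction l with
  | nil => rw [pw_nil, H.len_one]; exact Nat.zero_le _
  | cons b l ih =>
    have h1 : pw x y (b :: l) = pw x y [b] * pw x y l := pw_append x y [b] l
    rw [h1, List.length_cons]
    have h2 := H.len_mul (pw x y [b]) (pw x y l)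
    have h3 : H.len (pw x y [b]) ≤ 1 := by
      rw [pw_single]
      split_ifs
      · exact hx
      · exact hy
    omega

theorem Taut.step {H : GH G} {x y : G} {n : ℕ} (h : Taut H x y n) (l : List Bool) (k : ℕ)
    (hk : k < l.length) : H.d (pw x y (l.take k)) (pw x y (l.take (k + 1))) ≤ 1 := by
  have h1 : l.take (k + 1) = l.take k ++ [l[k]] := by simp
  rw [h1, pw_append]
  unfold GH.d
  rw [inv_mul_cancel_left, pw_single]
  split_ifs
  · exact h.lx
  · exact h.ly

/-- cutting a positive word at two points which are almost between its ends -/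
theorem Taut.cut {H : GH G} {x y : G} {n : ℕ} (h : Taut H x y n) {l : List Bool}
    (hl : l.length ≤ n) {e : ℕ} {y1 y2 : G}
    (h1 : H.d 1 y1 + H.d y1 (pw x y l) ≤ H.len (pw x y l) + e)
    (h2 : H.d 1 y2 + H.d y2 (pw x y l) ≤ H.len (pw x y l) + e)
    (h12 : H.len y1 ≤ H.len y2) :
    ∃ (l' : List Bool) (c1 c2 : G), l'.length ≤ l.length ∧ H.len c1 ≤ e + 3 + H.D ∧
      H.len c2 ≤ e + 3 + H.D ∧ pw x y l' = c1 * (y1⁻¹ * y2) * c2 := by
  have hstep : ∀ k, k < l.length →
      H.len (pw x y (l.take (k + 1))) ≤ H.len (pw x y (l.take k)) + 1 := by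
    intro k hk
    have t1 := h.step l k hk
    have t2 := H.d_tri 1 (pw x y (l.take k)) (pw x y (l.take (k + 1)))
    rw [H.d_one, H.d_one] at t2
    omega
  have hend : H.len (pw x y (l.take l.length)) = H.len (pw x y l) := by rw [List.take_length]
  have near : ∀ (z : G) (k : ℕ), H.d 1 z + H.d z (pw x y l) ≤ H.len (pw x y l) + e →
      k ≤ l.length → H.len (pw x y (l.take k)) = min (H.len z) (H.len (pw x y l)) →
      H.d (pw x y (l.take k)) z ≤ e + 3 + H.D := by
    intro z k hz hk hr
    have t1 := h.add (l.take k) (l.drop k) (by rw [List.take_append_drop]; exact hl)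
    rw [List.take_append_drop] at t1
    have t2 : H.d (pw x y (l.take k)) (pw x y l) = H.len (pw x y (l.drop k)) := by
      conv_lhs => rw [← List.take_append_drop k l]
      unfold GH.d
      rw [List.take_append_drop]
      congr 1
      conv_lhs => rw [← List.take_append_drop k l, pw_append]
      rw [List.take_append_drop, inv_mul_cancel_left]
    have t3 := H.fp (pw x y (l.take k)) z 1 (pw x y l)
    rw [H.d_one, H.d_one', H.d_one'] at t3
    rw [H.d_one] at hz
    rcases max_choice (H.len (pw x y (l.take k)) + H.d z (pw x y l))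
      (H.d (pw x y (l.take k)) (pw x y l) + H.len z) with t4 | t4 <;> rw [t4] at t3 <;>
      rcases min_choice (H.len z) (H.len (pw x y l)) with t5 | t5 <;> rw [t5] at hr <;>
      omega
  obtain ⟨k1, -, hk1, hk1'⟩ := ivt (fun k => H.len (pw x y (l.take k))) 0 l.length
    (min (H.len y1) (H.len (pw x y l))) (Nat.zero_le _)
    (by simp only [List.take_zero, pw_nil, H.len_one]; exact Nat.zero_le _)
    (by simp only [hend]; exact min_le_right _ _) hstep
  obtain ⟨k2, hk12, hk2, hk2'⟩ := ivt (fun k => H.len (pw x y (l.take k))) k1 l.length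
    (min (H.len y2) (H.len (pw x y l))) hk1
    (by simp only [hk1']; exact min_le_min_right _ h12)
    (by simp only [hend]; exact min_le_right _ _) hstep
  have n1 := near y1 k1 h1 hk1 hk1'
  have n2 := near y2 k2 h2 hk2 hk2'
  refine ⟨(l.take k2).drop k1, (pw x y (l.take k1))⁻¹ * y1, y2⁻¹ * pw x y (l.take k2), ?_, n1, ?_,
    ?_⟩
  · rw [List.length_drop, List.length_take]
    omega
  · rw [H.d_comm] at n2
    exact n2
  · have h3 : pw x y (l.take k2) = pw x y (l.take k1) * pw x y ((l.take k2).drop k1) := by
      rw [← pw_append]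
      congr 1
      have h4 : l.take k1 = (l.take k2).take k1 := by
        rw [List.take_take, min_eq_left hk12]
      rw [h4, List.take_append_drop]
    rw [h3]
    group

end words

end Pool.Agent.V5helper37.PS
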